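import Pool.Agent.Lib.MP_6947cd_al.W.One
import Pool.Agent.Lib.MP_6947cd_al.T.Small

/-!
Problem MP_6947cd_al (Chollet).  Light rows: `θ = 9/10`; `F ≤ 2 Wrow`.
-/

set_option autoImplicit false

open MeasureTheory Set Filter Topology

namespace CholB
namespace WM

open VOneM

/-- the argument of `G` in the row value, `θ = 9/10` -/
noncomputable def sN (τ ξ : ℝ) : ℝ := 40 * (1 + ξ) / (9 * (29 + 9 * ξ) * (2 / (2 + τ) + ξ))
/-- the second parameter of the row value, `θ = 9/10` -/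
noncomputable def rN (τ ξ : ℝ) : ℝ := τ / (2 + τ) / (2 / (2 + τ) + ξ)

/-- closed form of the row value for `θ = 9/10`, `x = 9/20 (1 + ξ)` -/
theorem Wrow_nine {τ ξ : ℝ} (hτ : 0 ≤ τ) (hξ : 0 ≤ ξ) :
    Wrow (9 / 10) τ (9 / 20 * (1 + ξ)) = Real.log (1 / 10) + 1 / 10
      + (1 - sN τ ξ + rN τ ξ * sN τ ξ ^ 2) * G (sN τ ξ) + rN τ ξ * (1 - sN τ ξ)
      - KL τ + 2 / (1 + ξ) * Real.log ((29 + 9 * ξ) / 20) := by
  have h2τ : 0 < 2 + τ := by linarith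
  have h1 : 0 < 1 + ξ := by linarith
  have h3 : 0 < 29 + 9 * ξ := by linarith
  have hq : 0 < 2 / (2 + τ) := by positivity
  have hq1 : 0 < 2 / (2 + τ) + ξ := by linarith
  have hv : vrow (9 / 10) τ (9 / 20 * (1 + ξ))
      = (29 + 9 * ξ) / 20 * ((2 / (2 + τ) + ξ) / (1 + ξ)) := by
    unfold vrow
    field_simp
    ring
  have hv0 : 0 < (29 + 9 * ξ) / 20 * ((2 / (2 + τ) + ξ) / (1 + ξ)) := by positivity
  unfold Wrow
  rw [hv, V1_eq (by norm_num) (by norm_num) hv0]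
  have e1 : (1 - 9 / 10 : ℝ) / (9 / 10 / 2 * ((29 + 9 * ξ) / 20 * ((2 / (2 + τ) + ξ) / (1 + ξ))))
      = sN τ ξ := by
    unfold sN
    rw [div_eq_div_iff (by positivity) (by positivity)]
    field_simp
    ring
  have e2 : (1 + 9 / 20 * (1 + ξ) - (29 + 9 * ξ) / 20 * ((2 / (2 + τ) + ξ) / (1 + ξ)))
      / ((29 + 9 * ξ) / 20 * ((2 / (2 + τ) + ξ) / (1 + ξ))) = rN τ ξ := by
    unfold rN
    rw [div_eq_div_iff hv0.ne' hq1.ne']
    field_simp
    ring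
  have e3 : 2 * ((9 / 10 / 2 : ℝ) / (9 / 20 * (1 + ξ))) = 2 / (1 + ξ) := by
    field_simp
    norm_num
  have e4 : (1 : ℝ) + 9 / 20 * (1 + ξ) = (29 + 9 * ξ) / 20 := by ring
  have e5 : (1 : ℝ) - 9 / 10 = 1 / 10 := by norm_num
  rw [e1, e2, e3, e4, e5]
  ring

theorem sN_pos {τ ξ : ℝ} (hτ : 0 ≤ τ) (hξ : 0 ≤ ξ) : 0 < sN τ ξ := by
  unfold sN; positivity

theorem rN_nonneg {τ ξ : ℝ} (hτ : 0 ≤ τ) (hξ : 0 ≤ ξ) : 0 ≤ rN τ ξ := by
  unfold rN; positivity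

/-! ### the direct numerical part -/

section
open IA

/-- the linear expression `a + b x` -/
def lin (a b : ℤ) : E := .add (.cst a 1) (.mul (.cst b 1) .x0)
/-- `sN (9/10)` -/
def sE9 : E := .div (.mul (.cst 1160 1) (lin 1 1)) (.mul (.cst 9 1) (.mul (lin 29 9) (lin 20 29)))
/-- `rN (9/10)` -/
def rE9 : E := .div (.cst 9 1) (lin 20 29)
/-- `sN (3/4)` -/
def sE7 : E := .div (.mul (.cst 440 1) (lin 1 1)) (.mul (.cst 9 1) (.mul (lin 29 9) (lin 8 11)))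
/-- `rN (3/4)` -/
def rE7 : E := .div (.cst 3 1) (lin 8 11)
/-- square -/
def sqE (s : E) : E := .mul s s
/-- `Pd` -/
def pdE (s : E) : E := .sub (.add (.sub s (.div (sqE s) (.cst 4 1)))
  (.div (.mul (sqE s) s) (.cst 18 1))) (.div (.mul (sqE s) (sqE s)) (.cst 96 1))
/-- lower bound of `G` -/
def gE (s : E) : E :=
  .mul (.exp s) (.add (.sub (.cst (-577216) 1000000) (.log s)) (pdE s))
/-- lower bound of the row value -/
def wE (s r : E) (kp : ℤ) (kq : ℕ) : E :=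
  .add (.sub (.add (.add (.add (.cst 1 10) (.log (.cst 1 10)))
    (.mul (.add (.sub (.cst 1 1) s) (.mul r (sqE s))) (gE s))) (.mul r (.sub (.cst 1 1) s)))
    (.cst kp kq)) (.mul (.div (.cst 2 1) (lin 1 1)) (.log (.div (lin 29 9) (.cst 20 1))))
/-- `Pc` -/
def pcE (y : E) : E := .add (.sub (.div y (.cst 2 1)) (.div (sqE y) (.cst 6 1)))
  (.div (.mul y (sqE y)) (.cst 12 1))
/-- first interval -/
def f9 : E := .sub (pcE (sqE .x0)) (.mul (.cst 2 1) (wE sE9 rE9 2688 100000))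
/-- second interval -/
def f7 : E := .sub (pcE (sqE .x0)) (.mul (.cst 2 1) (wE sE7 rE7 137 10000))
/-- third interval -/
def f7c : E := .sub (pcE (.cst 9 100)) (.mul (.cst 2 1) (wE sE7 rE7 137 10000))

open T in
theorem f9_chk : chk [f9] (s0 (s0 (s0 (s0 (d 0) (d 0)) (s0 (d 0) (d 0))) (s0 (s0 (d 0) (d 0)) (d 0)))
    (s0 (s0 (d 0) (d 0)) (s0 (d 0) (d 0)))) ⟨34359738368, 103079215104⟩ ⟨0, 0⟩ ⟨0, 0⟩ = true := by
  decide +kernel

open T in
theorem f7_chk : chk [f7] (s0 (s0 (s0 (s0 (d 0) (d 0)) (s0 (d 0) (d 0))) (s0 (s0 (d 0) (d 0))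
    (s0 (d 0) (d 0)))) (s0 (s0 (d 0) (s0 (d 0) (d 0))) (s0 (s0 (d 0) (d 0)) (s0 (d 0)
    (s0 (d 0) (d 0)))))) ⟨103079215104, 329853488333⟩ ⟨0, 0⟩ ⟨0, 0⟩ = true := by
  decide +kernel

open T in
theorem f7c_chk : chk [f7c] (s0 (s0 (d 0) (d 0)) (d 0)) ⟨329853488332, 366503875926⟩ ⟨0, 0⟩ ⟨0, 0⟩
    = true := by
  decide +kernel

end

/-- the real lower bound -/
noncomputable def wR (s r k ξ : ℝ) : ℝ :=
  1 / 10 + Real.log (1 / 10) + (1 - s + r * s ^ 2) * (Real.exp s *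
    (-577216 / 1000000 - Real.log s + Pd s)) + r * (1 - s) - k
    + 2 / (1 + ξ) * Real.log ((29 + 9 * ξ) / 20)

theorem wR_le {τ ξ k : ℝ} (hτ : 0 ≤ τ) (hξ : 0 ≤ ξ) (hs1 : sN τ ξ ≤ 1) (hk : KL τ ≤ k) :
    wR (sN τ ξ) (rN τ ξ) k ξ ≤ Wrow (9 / 10) τ (9 / 20 * (1 + ξ)) := by
  rw [Wrow_nine hτ hξ]
  have hs := sN_pos hτ hξ
  have hr := rN_nonneg hτ hξ
  set s := sN τ ξ
  set r := rN τ ξ
  have hG := (G_bounds hs).1
  have hg := IA.gamma_lt
  have h1 : Real.exp s * (-577216 / 1000000 - Real.log s + Pd s) ≤ G s := by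
    refine le_trans (mul_le_mul_of_nonneg_left ?_ (Real.exp_pos s).le) hG
    norm_num at hg ⊢
    linarith
  have hA : 0 ≤ 1 - s + r * s ^ 2 := by
    have := mul_nonneg hr (sq_nonneg s)
    linarith
  have h2 := mul_le_mul_of_nonneg_left h1 hA
  unfold wR
  linarith

theorem sN9 {ξ : ℝ} (hξ : 0 ≤ ξ) :
    sN (9 / 10) ξ = 1160 * (1 + ξ) / (9 * ((29 + 9 * ξ) * (20 + 29 * ξ))) := by
  have h1 : 0 < 20 + 29 * ξ := by linarith
  have h3 : 0 < 29 + 9 * ξ := by linarith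
  unfold sN
  norm_num
  field_simp
  norm_num

theorem rN9 {ξ : ℝ} (hξ : 0 ≤ ξ) : rN (9 / 10) ξ = 9 / (20 + 29 * ξ) := by
  have h1 : 0 < 20 + 29 * ξ := by linarith
  have h2 : 0 < 20 / 29 + ξ := by linarith
  unfold rN
  norm_num
  rw [div_eq_div_iff h2.ne' h1.ne']
  ring

theorem sN7 {ξ : ℝ} (hξ : 0 ≤ ξ) :
    sN (3 / 4) ξ = 440 * (1 + ξ) / (9 * ((29 + 9 * ξ) * (8 + 11 * ξ))) := by
  have h1 : 0 < 8 + 11 * ξ := by linarith
  have h3 : 0 < 29 + 9 * ξ := by linarith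
  unfold sN
  norm_num
  field_simp
  norm_num

theorem rN7 {ξ : ℝ} (hξ : 0 ≤ ξ) : rN (3 / 4) ξ = 3 / (8 + 11 * ξ) := by
  have h1 : 0 < 8 + 11 * ξ := by linarith
  have h2 : 0 < 8 / 11 + ξ := by linarith
  unfold rN
  norm_num
  rw [div_eq_div_iff h2.ne' h1.ne']
  ring

/-! ### numerical values -/

section
open IA
/-- `G (2/9)` from above -/
def g0E : E := .sub (.mul (.exp (.cst 2 9)) (.add (.sub (.cst (-57718) 100000) (.log (.cst 2 9)))
  (.cst 1864133 8857350))) (.cst 14205 10000)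

theorem g0E_chk : chk [g0E] (T.v 0) ⟨0, 0⟩ ⟨0, 0⟩ ⟨0, 0⟩ = true := by decide +kernel
/-- `KL (9/10)` -/
def klE9 : E := .sub (.add (.add (.add (.mul (.cst 2 1) (.log (.cst 29 20))) (.log (.cst 1 10)))
  (.cst 9 20)) (.mul (.cst 4 5) (.mul (.exp (.cst 2 9)) (.add (.sub (.cst (-57718) 100000)
  (.log (.cst 2 9))) (.cst 1864133 8857350))))) (.cst 2688 100000)

theorem klE9_chk : chk [klE9] (T.v 0) ⟨0, 0⟩ ⟨0, 0⟩ ⟨0, 0⟩ = true := by decide +kernel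
end

theorem G_two_ninth : G (2 / 9) ≤ Real.exp (2 / 9) * (-57718 / 100000 - Real.log (2 / 9)
    + 1864133 / 8857350) := by
  refine (G_bounds (by norm_num)).2.trans (mul_le_mul_of_nonneg_left ?_ (Real.exp_pos _).le)
  have hg := IA.lt_gamma
  have hPu : Pu (2 / 9) = 1864133 / 8857350 := by unfold Pu; norm_num
  rw [hPu]
  norm_num at hg ⊢
  linarith

theorem G0_le : G (2 / 9) ≤ 14205 / 10000 := by
  obtain ⟨e, he, h⟩ := IA.chk_sound _ _ _ _ _ g0E_chk 0 0 0 ⟨by simp, by simp⟩ ⟨by simp, by simp⟩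
    ⟨by simp, by simp⟩
  simp only [List.mem_singleton] at he
  rw [he] at h
  simp only [g0E, IA.E.ev] at h
  push_cast at h
  linarith [G_two_ninth]

theorem KL_nine_tenths_eq : KL (9 / 10) = 2 * Real.log (29 / 20) + Real.log (1 / 10) + 9 / 20
    + 4 / 5 * G (2 / 9) := by
  rw [KL_eq (by norm_num) (by norm_num)]
  norm_num

theorem KL_nine_tenths : KL (9 / 10) ≤ 2688 / 100000 := by
  rw [KL_nine_tenths_eq]
  obtain ⟨e, he, h⟩ := IA.chk_sound _ _ _ _ _ klE9_chk 0 0 0 ⟨by simp, by simp⟩ ⟨by simp, by simp⟩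
    ⟨by simp, by simp⟩
  simp only [List.mem_singleton] at he
  rw [he] at h
  simp only [klE9, IA.E.ev] at h
  push_cast at h
  linarith [G_two_ninth]

open Pool.Agent.Lib.MP_6947cd_al.Ent (Pc)

theorem light_mid {ξ : ℝ} (h0 : 1 / 32 ≤ ξ) (h1 : ξ ≤ 3 / 32) :
    Pc (ξ ^ 2) ≤ 2 * Wrow (9 / 10) (9 / 10) (9 / 20 * (1 + ξ)) := by
  have hξ : 0 ≤ ξ := by linarith
  have hs1 : sN (9 / 10) ξ ≤ 1 := by
    rw [sN9 hξ, div_le_one (by positivity)]
    nlinarith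
  have hw := wR_le (τ := 9 / 10) (by norm_num) hξ hs1 KL_nine_tenths
  refine le_trans ?_ (mul_le_mul_of_nonneg_left hw zero_le_two)
  obtain ⟨e, he, h⟩ := IA.chk_sound _ _ _ _ _ f9_chk ξ 0 0
    ⟨by norm_num; linarith, by norm_num; linarith⟩ ⟨by simp, by simp⟩ ⟨by simp, by simp⟩
  simp only [List.mem_singleton] at he
  rw [he] at h
  simp only [f9, pcE, sqE, wE, gE, pdE, sE9, rE9, lin, IA.E.ev] at h
  push_cast at h
  simp only [one_mul, div_one] at h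
  rw [← sN9 hξ, ← rN9 hξ] at h
  unfold wR Pd Pc
  refine le_of_sub_nonpos (le_trans (le_of_eq ?_) h)
  ring

theorem light_high {ξ : ℝ} (h0 : 3 / 32 ≤ ξ) (h1 : ξ ≤ 3 / 10) :
    Pc (ξ ^ 2) ≤ 2 * Wrow (9 / 10) (3 / 4) (9 / 20 * (1 + ξ)) := by
  have hξ : 0 ≤ ξ := by linarith
  have hs1 : sN (3 / 4) ξ ≤ 1 := by
    rw [sN7 hξ, div_le_one (by positivity)]
    nlinarith
  have hw := wR_le (τ := 3 / 4) (by norm_num) hξ hs1 KL_three_quarters
  refine le_trans ?_ (mul_le_mul_of_nonneg_left hw zero_le_two)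
  obtain ⟨e, he, h⟩ := IA.chk_sound _ _ _ _ _ f7_chk ξ 0 0
    ⟨by norm_num; linarith, by norm_num; linarith⟩ ⟨by simp, by simp⟩ ⟨by simp, by simp⟩
  simp only [List.mem_singleton] at he
  rw [he] at h
  simp only [f7, pcE, sqE, wE, gE, pdE, sE7, rE7, lin, IA.E.ev] at h
  push_cast at h
  simp only [one_mul, div_one] at h
  rw [← sN7 hξ, ← rN7 hξ] at h
  unfold wR Pd Pc
  refine le_of_sub_nonpos (le_trans (le_of_eq ?_) h)
  ring

theorem light_top {ξ : ℝ} (h0 : 3 / 10 ≤ ξ) (h1 : ξ ≤ 1 / 3) :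
    Pc (9 / 100) ≤ 2 * Wrow (9 / 10) (3 / 4) (9 / 20 * (1 + ξ)) := by
  have hξ : 0 ≤ ξ := by linarith
  have hs1 : sN (3 / 4) ξ ≤ 1 := by
    rw [sN7 hξ, div_le_one (by positivity)]
    nlinarith
  have hw := wR_le (τ := 3 / 4) (by norm_num) hξ hs1 KL_three_quarters
  refine le_trans ?_ (mul_le_mul_of_nonneg_left hw zero_le_two)
  obtain ⟨e, he, h⟩ := IA.chk_sound _ _ _ _ _ f7c_chk ξ 0 0
    ⟨by norm_num; linarith, by norm_num; linarith⟩ ⟨by simp, by simp⟩ ⟨by simp, by simp⟩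
  simp only [List.mem_singleton] at he
  rw [he] at h
  simp only [f7c, pcE, sqE, wE, gE, pdE, sE7, rE7, lin, IA.E.ev] at h
  push_cast at h
  simp only [one_mul, div_one] at h
  rw [← sN7 hξ, ← rN7 hξ] at h
  unfold wR Pd Pc
  refine le_of_sub_nonpos (le_trans (le_of_eq ?_) h)
  ring

/-! ### near zero -/

theorem int_G2 {s : ℝ} (hs : 0 < s) :
    IntegrableOn (fun x : ℝ => Real.exp (-x) / (s + x) ^ 2) (Ioi 0) := by
  refine Integrable.mono' (int_exp.const_mul (1 / s ^ 2)) ?_ ?_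
  · exact (by fun_prop : Measurable fun x : ℝ => Real.exp (-x) / (s + x) ^ 2).aestronglyMeasurable
  · refine (ae_restrict_iff' measurableSet_Ioi).2 (Eventually.of_forall fun x hx => ?_)
    have hx' : (0 : ℝ) < x := hx
    rw [Real.norm_eq_abs, abs_of_pos (by positivity), one_div, mul_comm, ← div_eq_mul_inv]
    exact div_le_div_of_nonneg_left (Real.exp_pos _).le (by positivity)
      (pow_le_pow_left₀ hs.le (by linarith) 2)

theorem val_G2 {s : ℝ} (hs : 0 < s) :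
    ∫ x in Ioi (0 : ℝ), Real.exp (-x) / (s + x) ^ 2 = 1 / s - G s := by
  set f : ℝ → ℝ := fun x => -(Real.exp (-x) / (s + x)) with hf
  set f' : ℝ → ℝ := fun x => Real.exp (-x) / (s + x) + Real.exp (-x) / (s + x) ^ 2 with hf'
  have hderiv : ∀ x ∈ Ici (0 : ℝ), HasDerivAt f (f' x) x := by
    intro x hx
    have hx' : (0 : ℝ) ≤ x := hx
    have h1 : HasDerivAt (fun x : ℝ => Real.exp (-x)) (-Real.exp (-x)) x := by
      simpa using (hasDerivAt_neg x).exp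
    have h3 : HasDerivAt (fun x : ℝ => s + x) 1 x := (hasDerivAt_id x).const_add s
    have h5 := (h1.div h3 (by linarith)).neg
    refine h5.congr_deriv ?_
    simp only [hf']
    have : s + x ≠ 0 := by linarith
    field_simp
    ring
  have hint : IntegrableOn f' (Ioi 0) := (int_G hs).add (int_G2 hs)
  have htop : Tendsto f atTop (𝓝 0) := by
    have hb : Tendsto (fun x : ℝ => (1 / s) * Real.exp (-x)) atTop (𝓝 0) := by
      have h := (tendsto_pow_exp 0).const_mul (1 / s)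
      simpa using h
    refine squeeze_zero_norm' ?_ hb
    filter_upwards [eventually_gt_atTop 0] with x hx
    rw [Real.norm_eq_abs, hf]
    show |-(Real.exp (-x) / (s + x))| ≤ _
    rw [abs_neg, abs_of_pos (by positivity), one_div, mul_comm, ← div_eq_mul_inv]
    exact div_le_div_of_nonneg_left (Real.exp_pos _).le hs (by linarith)
  have hmain := integral_Ioi_of_hasDerivAt_of_tendsto' hderiv hint htop
  have hsplit : ∫ x in Ioi (0 : ℝ), f' x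
      = G s + ∫ x in Ioi (0 : ℝ), Real.exp (-x) / (s + x) ^ 2 :=
    integral_add (int_G hs) (int_G2 hs)
  rw [hsplit] at hmain
  have h0 : f 0 = -(1 / s) := by simp [hf]
  rw [h0] at hmain
  linarith

/-- `G` is convex -/
theorem G_tangent {s s0 : ℝ} (hs : 0 < s) (hs0 : 0 < s0) :
    G s0 + (s0 - s) * (1 / s0 - G s0) ≤ G s := by
  rw [← val_G2 hs0]
  have h1 : G s0 + (s0 - s) * ∫ x in Ioi (0 : ℝ), Real.exp (-x) / (s0 + x) ^ 2
      = ∫ x in Ioi (0 : ℝ), (Real.exp (-x) / (s0 + x)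
        + (s0 - s) * (Real.exp (-x) / (s0 + x) ^ 2)) := by
    rw [integral_add (int_G hs0) ((int_G2 hs0).const_mul _), integral_const_mul]
    rfl
  rw [h1]
  refine setIntegral_mono_on ((int_G hs0).add ((int_G2 hs0).const_mul _)) (int_G hs)
    measurableSet_Ioi fun x hx => ?_
  have hx' : (0 : ℝ) < x := hx
  have ha : 0 < s + x := by linarith
  have hb : 0 < s0 + x := by linarith
  have e : Real.exp (-x) / (s + x) - (Real.exp (-x) / (s0 + x)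
      + (s0 - s) * (Real.exp (-x) / (s0 + x) ^ 2))
      = Real.exp (-x) * ((s0 - s) ^ 2 / ((s + x) * (s0 + x) ^ 2)) := by
    field_simp
    ring
  have h2 : 0 ≤ Real.exp (-x) * ((s0 - s) ^ 2 / ((s + x) * (s0 + x) ^ 2)) := by positivity
  linarith

section
open IA
/-- the quotient `(2/9 - s)/ξ` -/
def dE : E := .div (.mul (.cst 2 1) (lin 49 29)) (.mul (lin 29 9) (lin 20 29))
/-- the quotient `(9/20 - r)/ξ` -/
def oE : E := .div (.cst 261 1) (.mul (.cst 20 1) (lin 20 29))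
/-- `A` -/
def aE : E := .add (.sub (.cst 1 1) sE9) (.mul rE9 (sqE sE9))
/-- coefficient of `G (2/9)` -/
def cE : E := .sub (.sub (.add (.mul (.cst 4 5) dE) (.mul (.mul (.cst 9 20) .x0) (sqE dE)))
  (.mul oE (sqE sE9))) (.mul aE dE)
/-- the inequality near zero -/
def lowE : E := .sub (.div .x0 (.cst 4 1)) (.add (.sub (.add (.add (.mul cE (.cst 14205 10000))
  (.mul (.cst 9 2) (.mul aE dE))) (.sub (.sub (.mul (.cst 9 20) dE) (.mul (.cst 7 9) oE))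
  (.mul .x0 (.mul oE dE)))) (.div (.mul (.cst 2 1) (.log (.cst 29 20))) (lin 1 1)))
  (.div (.cst 36 1) (.mul (lin 1 1) (lin 58 9))))

theorem cE_chk : chk [cE] (T.v 0) ⟨0, 34359738368⟩ ⟨0, 0⟩ ⟨0, 0⟩ = true := by decide +kernel

theorem lowE_chk : chk [lowE] (T.s0 (T.d 0) (T.d 0)) ⟨0, 34359738368⟩ ⟨0, 0⟩ ⟨0, 0⟩ = true := by
  decide +kernel
end

theorem light_low {ξ : ℝ} (h0 : 0 ≤ ξ) (h1 : ξ ≤ 1 / 32) :
    Pc (ξ ^ 2) ≤ 2 * Wrow (9 / 10) (9 / 10) (9 / 20 * (1 + ξ)) := by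
  have hs := sN_pos (τ := 9 / 10) (by norm_num) h0
  have p1 : 0 < 1 + ξ := by linarith
  have p2 : 0 < 29 + 9 * ξ := by linarith
  have p3 : 0 < 20 + 29 * ξ := by linarith
  have p4 : 0 < 58 + 9 * ξ := by linarith
  obtain ⟨e, he, hc⟩ := IA.chk_sound _ _ _ _ _ cE_chk ξ 0 0
    ⟨by norm_num; linarith, by norm_num; linarith⟩ ⟨by simp, by simp⟩ ⟨by simp, by simp⟩
  simp only [List.mem_singleton] at he
  rw [he] at hc
  obtain ⟨e', he', hl⟩ := IA.chk_sound _ _ _ _ _ lowE_chk ξ 0 0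
    ⟨by norm_num; linarith, by norm_num; linarith⟩ ⟨by simp, by simp⟩ ⟨by simp, by simp⟩
  simp only [List.mem_singleton] at he'
  rw [he'] at hl
  simp only [lowE, cE, aE, dE, oE, sE9, rE9, sqE, lin, IA.E.ev] at hc hl
  push_cast at hc hl
  simp only [one_mul, div_one] at hc hl
  rw [← sN9 h0, ← rN9 h0] at hc hl
  set d : ℝ := 2 * (49 + 29 * ξ) / ((29 + 9 * ξ) * (20 + 29 * ξ)) with hd
  set o : ℝ := 261 / (20 * (20 + 29 * ξ)) with ho
  have hsd : sN (9 / 10) ξ = 2 / 9 - ξ * d := by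
    rw [sN9 h0, hd]
    field_simp
    ring
  have hro : rN (9 / 10) ξ = 9 / 20 - ξ * o := by
    rw [rN9 h0, ho]
    field_simp
    ring
  have hd0 : 0 ≤ d := by rw [hd]; positivity
  have hr := rN_nonneg (τ := 9 / 10) (by norm_num) h0
  have htan := G_tangent hs (show (0 : ℝ) < 2 / 9 by norm_num)
  have hA : 0 ≤ 1 - sN (9 / 10) ξ + rN (9 / 10) ξ * sN (9 / 10) ξ ^ 2 := by
    have e1 := mul_nonneg hr (sq_nonneg (sN (9 / 10) ξ))
    have e2 := mul_nonneg h0 hd0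
    linarith
  have hAG := mul_le_mul_of_nonneg_left htan hA
  have hG0 := G0_le
  rw [Wrow_nine (by norm_num) h0, KL_nine_tenths_eq]
  have hlog : Real.log ((29 + 9 * ξ) / 20) = Real.log (29 / 20) + Real.log (1 + 9 * ξ / 29) := by
    rw [← Real.log_mul (by norm_num) (by positivity)]
    congr 1
    ring
  have hlog2 : 18 * ξ / (58 + 9 * ξ) ≤ Real.log (1 + 9 * ξ / 29) := by
    have h := Real.le_log_one_add_of_nonneg (show (0 : ℝ) ≤ 9 * ξ / 29 by positivity)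
    refine le_trans (le_of_eq ?_) h
    rw [div_eq_div_iff (by positivity) (by positivity)]
    ring
  have hPc : Pc (ξ ^ 2) ≤ ξ ^ 2 / 2 := by
    unfold Pc
    have : (ξ ^ 2) ^ 3 / 12 ≤ (ξ ^ 2) ^ 2 / 6 := by
      have e : ξ ^ 2 ≤ 1 := by nlinarith
      nlinarith [mul_nonneg (sq_nonneg (ξ ^ 2)) (sub_nonneg.mpr e)]
    linarith
  refine hPc.trans ?_
  rw [hlog]
  set g := G (2 / 9)
  set L := Real.log (29 / 20)
  have hcg : (4 / 5 * d + 9 / 20 * ξ * (d * d) - o * (sN (9 / 10) ξ * sN (9 / 10) ξ)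
      - (1 - sN (9 / 10) ξ + rN (9 / 10) ξ * (sN (9 / 10) ξ * sN (9 / 10) ξ)) * d) * (14205 / 10000)
      ≤ (4 / 5 * d + 9 / 20 * ξ * (d * d) - o * (sN (9 / 10) ξ * sN (9 / 10) ξ)
      - (1 - sN (9 / 10) ξ + rN (9 / 10) ξ * (sN (9 / 10) ξ * sN (9 / 10) ξ)) * d) * g :=
    mul_le_mul_of_nonpos_left hG0 hc
  have hlg := mul_le_mul_of_nonneg_left hlog2 (show 0 ≤ 2 / (1 + ξ) by positivity)
  have e1 : 2 / (1 + ξ) * (18 * ξ / (58 + 9 * ξ)) = ξ * (36 / ((1 + ξ) * (58 + 9 * ξ))) := by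
    field_simp
    ring
  have e2 : 2 / (1 + ξ) * L = 2 * L - ξ * (2 * L / (1 + ξ)) := by
    field_simp
    ring
  rw [e1] at hlg
  have hl2 := mul_le_mul_of_nonneg_left (hl) h0
  have hcg2 := mul_le_mul_of_nonneg_left hcg h0
  set M : ℝ := 36 / ((1 + ξ) * (58 + 9 * ξ))
  set N : ℝ := 2 * L / (1 + ξ)
  set G1 := G (sN (9 / 10) ξ)
  set Q := 2 / (1 + ξ) * Real.log (1 + 9 * ξ / 29)
  have K1 : (1 - sN (9 / 10) ξ + rN (9 / 10) ξ * sN (9 / 10) ξ ^ 2)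
      * (g + (2 / 9 - sN (9 / 10) ξ) * (1 / (2 / 9) - g))
      = 7 / 20 + 4 / 5 * g - rN (9 / 10) ξ * (1 - sN (9 / 10) ξ)
      + ξ * ((4 / 5 * d + 9 / 20 * ξ * (d * d) - o * (sN (9 / 10) ξ * sN (9 / 10) ξ)
      - (1 - sN (9 / 10) ξ + rN (9 / 10) ξ * (sN (9 / 10) ξ * sN (9 / 10) ξ)) * d) * g)
      + ξ * (9 / 2 * ((1 - sN (9 / 10) ξ + rN (9 / 10) ξ * (sN (9 / 10) ξ * sN (9 / 10) ξ)) * d)
        + (9 / 20 * d - 7 / 9 * o - ξ * (o * d))) := by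
    rw [hsd, hro]
    ring
  rw [K1] at hAG
  rw [mul_add (2 / (1 + ξ)), e2]
  rw [mul_zero] at hl2
  rw [mul_sub, mul_add ξ, mul_sub ξ, mul_add ξ, mul_add ξ] at hl2
  have e3 : ξ * (ξ / 4) = ξ ^ 2 / 4 := by ring
  rw [e3] at hl2
  linarith

/-- the parameter `τ` of a light row -/
noncomputable def tauL (ξ : ℝ) : ℝ := if ξ ≤ 3 / 32 then 9 / 10 else 3 / 4

theorem tauL_mem (ξ : ℝ) : 0 ≤ tauL ξ ∧ tauL ξ ≤ 1 := by
  unfold tauL
  split_ifs <;> norm_num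

open Pool.Agent.Lib.MP_6947cd_al.Ent in
/-- light rows are good -/
theorem light_row {κ : Type} [Fintype κ] [DecidableEq κ] (b : κ → ℝ) (hb0 : ∀ j, 0 ≤ b j)
    (hb1 : ∀ j, b j ≤ 1) (i : κ) (hi : b i = 1) (ξ : ℝ)
    (hβ : ∑ j ∈ Finset.univ.erase i, b j ≤ 3 / 10) (h1 : ∑ j ∈ Finset.univ.erase i, b j ≤ ξ)
    (h2 : ξ ≤ 10 / 9 * ∑ j ∈ Finset.univ.erase i, b j) :
    F b ≤ 2 * Wrow (9 / 10) (tauL ξ) (9 / 20 * (1 + ξ)) := by
  have hF := F_le_Pc b hb0 hb1 i hi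
  have hβ0 : 0 ≤ ∑ j ∈ Finset.univ.erase i, b j := Finset.sum_nonneg fun j _ => hb0 j
  set β := ∑ j ∈ Finset.univ.erase i, b j
  have hξ : 0 ≤ ξ := hβ0.trans h1
  have hsq : Pc (β ^ 2) ≤ Pc (ξ ^ 2) := Pc_mono (pow_le_pow_left₀ hβ0 h1 2)
  unfold tauL
  split_ifs with h
  · refine hF.trans (hsq.trans ?_)
    by_cases h3 : ξ ≤ 1 / 32
    · exact light_low hξ h3
    · exact light_mid (by linarith) h
  · have h4 : 3 / 32 ≤ ξ := by linarith
    by_cases h3 : ξ ≤ 3 / 10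
    · exact hF.trans (hsq.trans (light_high h4 h3))
    · refine hF.trans (le_trans ?_ (light_top (by linarith) (by linarith)))
      refine Pc_mono ?_
      calc β ^ 2 ≤ (3 / 10) ^ 2 := pow_le_pow_left₀ hβ0 hβ 2
        _ = 9 / 100 := by norm_num

end WM
end CholB
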