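import Pool.Agent.Lib.MP_6947cd_al.W.G
import Pool.Agent.Lib.Interval.Gamma

/-!
Problem MP_6947cd_al (Chollet).  The row values of Theorem S for `θ = 1` and `τ ∈ {0, 1/2, 3/4}` in
closed form; monotonicity.
-/

set_option autoImplicit false

open MeasureTheory Set Filter Topology

namespace CholB
namespace WM

/-- closed form of the row value for `θ = 1`, `x = (1 + ξ)/2` -/
theorem Wrow_one {τ ξ : ℝ} (hτ : 0 ≤ τ) (hξ : 0 ≤ ξ) :
    Wrow 1 τ ((1 + ξ) / 2) = Real.log ((3 + ξ) / 4) - Real.eulerMascheroniConstant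
      + 2 / (1 + ξ) * Real.log ((3 + ξ) / 2)
      + (Real.log ((2 / (2 + τ) + ξ) / (1 + ξ)) + (τ / (2 + τ)) / (2 / (2 + τ) + ξ)) - KL τ := by
  have h2τ : 0 < 2 + τ := by linarith
  have h1 : 0 < 1 + ξ := by linarith
  have h3 : 0 < 3 + ξ := by linarith
  have hq : 0 < 2 / (2 + τ) := by positivity
  have hq1 : 0 < 2 / (2 + τ) + ξ := by linarith
  have hv : vrow 1 τ ((1 + ξ) / 2) = (3 + ξ) / 2 * ((2 / (2 + τ) + ξ) / (1 + ξ)) := by
    unfold vrow
    field_simp
    ring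
  have hv0 : 0 < (3 + ξ) / 2 * ((2 / (2 + τ) + ξ) / (1 + ξ)) := by positivity
  unfold Wrow
  rw [hv, show (1 : ℝ) - 1 = 0 by norm_num, VOneM.zero (by norm_num) hv0]
  have e1 : (1 / 2 : ℝ) * ((3 + ξ) / 2 * ((2 / (2 + τ) + ξ) / (1 + ξ)))
      = (3 + ξ) / 4 * ((2 / (2 + τ) + ξ) / (1 + ξ)) := by ring
  rw [e1, Real.log_mul (by positivity) (by positivity)]
  have e2 : (1 + (1 + ξ) / 2 - (3 + ξ) / 2 * ((2 / (2 + τ) + ξ) / (1 + ξ)))
      / ((3 + ξ) / 2 * ((2 / (2 + τ) + ξ) / (1 + ξ))) = (τ / (2 + τ)) / (2 / (2 + τ) + ξ) := by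
    rw [div_eq_div_iff hv0.ne' hq1.ne']
    field_simp
    ring
  rw [e2]
  have e3 : 2 * ((1 / 2 : ℝ) / ((1 + ξ) / 2)) = 2 / (1 + ξ) := by field_simp
  have e4 : (1 : ℝ) + (1 + ξ) / 2 = (3 + ξ) / 2 := by ring
  rw [e3, e4]
  ring

/-- lower bound of the row value, `θ = 1`, `τ = 0` -/
noncomputable def w0 (ξ : ℝ) : ℝ :=
  Real.log ((3 + ξ) / 4) - 577216 / 1000000 + 2 / (1 + ξ) * Real.log ((3 + ξ) / 2)

/-- lower bound of the row value, `θ = 1`, `τ = 1/2` -/
noncomputable def wh (ξ : ℝ) : ℝ :=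
  w0 ξ + (Real.log ((4 / 5 + ξ) / (1 + ξ)) + (1 / 5) / (4 / 5 + ξ))
    - (2 * Real.log (5 / 4) - Real.log 2 + 1 / 4)

/-- lower bound of the row value, `θ = 1`, `τ = 3/4` -/
noncomputable def wt (ξ : ℝ) : ℝ :=
  w0 ξ + (Real.log ((8 / 11 + ξ) / (1 + ξ)) + (3 / 11) / (8 / 11 + ξ)) - 137 / 10000

theorem KL_zero : KL 0 = 0 := by
  unfold KL
  simp

section
open IA
/-- the numerical inequality for `KL (3/4)` -/
def klE : E := .sub (.add (.add (.add (.mul (.cst 2 1) (.log (.cst 11 8))) (.log (.cst 1 4)))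
  (.cst 3 8)) (.mul (.cst 1 2) (.mul (.exp (.cst 2 3)) (.add (.sub (.cst (-57718) 100000)
  (.log (.cst 2 3))) (.cst 20783 36450))))) (.cst 137 10000)

theorem klE_chk : chk [klE] (T.v 0) ⟨0, 0⟩ ⟨0, 0⟩ ⟨0, 0⟩ = true := by decide +kernel
end

theorem KL_three_quarters : KL (3 / 4) ≤ 137 / 10000 := by
  rw [KL_eq (by norm_num) (by norm_num)]
  have hs : (0 : ℝ) < 2 * (1 - 3 / 4) / (3 / 4) := by norm_num
  have hb := (G_bounds hs).2
  have es : (2 * (1 - 3 / 4) / (3 / 4) : ℝ) = 2 / 3 := by norm_num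
  rw [es] at hb ⊢
  have hg := IA.lt_gamma
  have hPu : Pu (2 / 3) = 20783 / 36450 := by unfold Pu; norm_num
  rw [hPu] at hb
  have h := IA.chk_sound _ _ _ _ _ klE_chk 0 0 0 ⟨by simp, by simp⟩ ⟨by simp, by simp⟩
    ⟨by simp, by simp⟩
  obtain ⟨e, he, h⟩ := h
  simp only [List.mem_singleton] at he
  rw [he] at h
  simp only [klE, IA.E.ev] at h
  push_cast at h
  have hE : 0 < Real.exp (2 / 3) := Real.exp_pos _
  have h2 : Real.exp (2 / 3) * (-Real.eulerMascheroniConstant - Real.log (2 / 3) + 20783 / 36450)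
      ≤ Real.exp (2 / 3) * (-57718 / 100000 - Real.log (2 / 3) + 20783 / 36450) := by
    refine mul_le_mul_of_nonneg_left ?_ hE.le
    norm_num at hg ⊢
    linarith
  have e1 : (1 : ℝ) + 3 / 4 / 2 = 11 / 8 := by norm_num
  have e2 : (1 : ℝ) - 3 / 4 = 1 / 4 := by norm_num
  rw [e1, e2]
  linarith

theorem w0_le {ξ : ℝ} (hξ : 0 ≤ ξ) : w0 ξ ≤ Wrow 1 0 ((1 + ξ) / 2) := by
  rw [Wrow_one le_rfl hξ, KL_zero]
  have h1 : (2 / (2 + 0) + ξ : ℝ) / (1 + ξ) = 1 := by
    rw [show (2 / (2 + 0) + ξ : ℝ) = 1 + ξ by norm_num, div_self (by linarith)]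
  rw [h1, Real.log_one]
  have hg := IA.gamma_lt
  unfold w0
  norm_num at hg ⊢
  linarith

theorem wh_le {ξ : ℝ} (hξ : 0 ≤ ξ) : wh ξ ≤ Wrow 1 (1 / 2) ((1 + ξ) / 2) := by
  rw [Wrow_one (by norm_num) hξ, KL_half]
  have hg := IA.gamma_lt
  have e1 : (2 / (2 + 1 / 2) : ℝ) = 4 / 5 := by norm_num
  have e2 : ((1 / 2) / (2 + 1 / 2) : ℝ) = 1 / 5 := by norm_num
  rw [e1, e2]
  unfold wh w0
  norm_num at hg ⊢
  linarith

theorem wt_le {ξ : ℝ} (hξ : 0 ≤ ξ) : wt ξ ≤ Wrow 1 (3 / 4) ((1 + ξ) / 2) := by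
  rw [Wrow_one (by norm_num) hξ]
  have hk := KL_three_quarters
  have hg := IA.gamma_lt
  have e1 : (2 / (2 + 3 / 4) : ℝ) = 8 / 11 := by norm_num
  have e2 : ((3 / 4) / (2 + 3 / 4) : ℝ) = 3 / 11 := by norm_num
  rw [e1, e2]
  unfold wt w0
  norm_num at hg ⊢
  linarith

/-- `log (1+t) ≤ t (t+2)/(2 (t+1))` -/
theorem log_one_add_le {t : ℝ} (ht : 0 ≤ t) : Real.log (1 + t) ≤ t * (t + 2) / (2 * (t + 1)) := by
  have hm : MonotoneOn (fun t : ℝ => t * (t + 2) / (2 * (t + 1)) - Real.log (1 + t)) (Ici 0) := by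
    have hd : ∀ x : ℝ, 0 ≤ x → HasDerivAt (fun t : ℝ => t * (t + 2) / (2 * (t + 1))
        - Real.log (1 + t)) (x ^ 2 / (2 * (1 + x) ^ 2)) x := by
      intro x hx
      have h1 : HasDerivAt (fun t : ℝ => t * (t + 2)) (2 * x + 2) x := by
        refine ((hasDerivAt_id x).mul ((hasDerivAt_id x).add_const 2)).congr_deriv ?_
        simp only [id]
        ring
      have h2 : HasDerivAt (fun t : ℝ => 2 * (t + 1)) 2 x := by
        refine (((hasDerivAt_id x).add_const 1).const_mul 2).congr_deriv ?_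
        ring
      have h3 : HasDerivAt (fun t : ℝ => 1 + t) 1 x := (hasDerivAt_id x).const_add 1
      refine ((h1.div h2 (by positivity)).sub (h3.log (by linarith))).congr_deriv ?_
      have : (1 : ℝ) + x ≠ 0 := by linarith
      have : x + 1 ≠ 0 := by linarith
      field_simp
      ring
    refine monotoneOn_of_deriv_nonneg (convex_Ici 0)
      (fun x hx => (hd x hx).continuousAt.continuousWithinAt)
      (fun x hx => ?_) fun x hx => ?_
    · rw [interior_Ici] at hx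
      exact (hd x (le_of_lt hx)).differentiableAt.differentiableWithinAt
    · rw [interior_Ici] at hx
      rw [(hd x (le_of_lt hx)).deriv]
      positivity
  have h := hm (mem_Ici.mpr le_rfl) (mem_Ici.mpr ht) ht
  simp only [add_zero, Real.log_one, zero_mul, zero_div, sub_zero] at h
  linarith

/-- derivative of `w0` plus the correction of parameter `p = 1 - q` -/
theorem mono_aux (p : ℝ) (hp : 8 / 11 ≤ p) (hp1 : p ≤ 1) :
    MonotoneOn (fun ξ : ℝ => w0 ξ + (Real.log ((p + ξ) / (1 + ξ)) + (1 - p) / (p + ξ))) (Ici 0) := by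
  have hd : ∀ x : ℝ, 0 ≤ x → HasDerivAt
      (fun ξ : ℝ => w0 ξ + (Real.log ((p + ξ) / (1 + ξ)) + (1 - p) / (p + ξ)))
      (1 / (1 + x) - 2 * Real.log ((3 + x) / 2) / (1 + x) ^ 2
        - (1 - p) ^ 2 / ((p + x) ^ 2 * (1 + x))) x := by
    intro x hx
    have hpx : 0 < p + x := by linarith
    have h1x : 0 < 1 + x := by linarith
    have h3x : 0 < 3 + x := by linarith
    have a1 : HasDerivAt (fun t : ℝ => (3 + t) / 4) (1 / 4) x :=
      ((hasDerivAt_id x).const_add 3).div_const 4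
    have a2 : HasDerivAt (fun t : ℝ => (3 + t) / 2) (1 / 2) x :=
      ((hasDerivAt_id x).const_add 3).div_const 2
    have a3 : HasDerivAt (fun t : ℝ => 1 + t) 1 x := (hasDerivAt_id x).const_add 1
    have a4 : HasDerivAt (fun t : ℝ => p + t) 1 x := (hasDerivAt_id x).const_add p
    have b1 := a1.log (by positivity)
    have b2 := ((hasDerivAt_const x (2 : ℝ)).div a3 h1x.ne').mul (a2.log (by positivity))
    have b3 := (a4.div a3 h1x.ne').log (div_pos hpx h1x).ne'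
    have b4 := (hasDerivAt_const x (1 - p)).div a4 hpx.ne'
    have h := ((b1.sub_const (577216 / 1000000)).add b2).add (b3.add b4)
    refine h.congr_deriv ?_
    simp only [Pi.div_apply]
    field_simp
    ring
  refine monotoneOn_of_deriv_nonneg (convex_Ici 0)
    (fun x hx => (hd x hx).continuousAt.continuousWithinAt)
    (fun x hx => ?_) fun x hx => ?_
  · rw [interior_Ici] at hx
    exact (hd x (le_of_lt hx)).differentiableAt.differentiableWithinAt
  · rw [interior_Ici] at hx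
    have hx0 : (0 : ℝ) < x := hx
    rw [(hd x hx0.le).deriv]
    have hpx : 0 < p + x := by linarith
    have h1x : 0 < 1 + x := by linarith
    have hL := log_one_add_le (show 0 ≤ (1 + x) / 2 by linarith)
    have e : 1 + (1 + x) / 2 = (3 + x) / 2 := by ring
    rw [e] at hL
    have e2 : (1 + x) / 2 * ((1 + x) / 2 + 2) / (2 * ((1 + x) / 2 + 1))
        = (1 + x) * (5 + x) / (4 * (3 + x)) := by
      field_simp
      ring
    rw [e2] at hL
    have h3x : 0 < 3 + x := by linarith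
    have k1 : 2 * Real.log ((3 + x) / 2) / (1 + x) ^ 2 ≤ (5 + x) / (2 * (3 + x) * (1 + x)) := by
      rw [div_le_div_iff₀ (by positivity) (by positivity)]
      rw [le_div_iff₀ (by positivity)] at hL
      nlinarith [mul_le_mul_of_nonneg_right hL h1x.le]
    have k2 : 1 / (1 + x) - (5 + x) / (2 * (3 + x) * (1 + x)) = 1 / (2 * (3 + x)) := by
      field_simp
      ring
    have k3 : (1 - p) ^ 2 / ((p + x) ^ 2 * (1 + x)) ≤ 1 / (2 * (3 + x)) := by
      rw [div_le_div_iff₀ (mul_pos (pow_pos hpx 2) h1x) (by linarith)]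
      have hq : (1 - p) ^ 2 ≤ 9 / 121 := by nlinarith
      have hpp : 64 / 121 ≤ p ^ 2 := by nlinarith
      nlinarith [mul_nonneg hx0.le hx0.le, mul_pos hx0 hpx, mul_nonneg hx0.le (sq_nonneg x),
        mul_nonneg hx0.le (sq_nonneg (p + x)), sq_nonneg (p + x)]
    linarith

theorem w0_mono : MonotoneOn w0 (Ici 0) := by
  have h := mono_aux 1 (by norm_num) le_rfl
  refine h.congr ?_
  intro ξ hξ
  have h1 : (1 : ℝ) + ξ ≠ 0 := by
    have : (0 : ℝ) ≤ ξ := hξ
    linarith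
  simp [div_self h1]

theorem wh_mono : MonotoneOn wh (Ici 0) := by
  intro a ha b hb hab
  have h := mono_aux (4 / 5) (by norm_num) (by norm_num) ha hb hab
  simp only at h
  unfold wh
  norm_num at h ⊢
  linarith

theorem wt_mono : MonotoneOn wt (Ici 0) := by
  intro a ha b hb hab
  have h := mono_aux (8 / 11) (by norm_num) (by norm_num) ha hb hab
  simp only at h
  unfold wt
  norm_num at h ⊢
  linarith

end WM
end CholB
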