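import Pool.Agent.Lib.MP_6947cd_al.W.Light

/-!
Problem MP_6947cd_al (Chollet).  The row values of Theorem S for `θ < 1`: closed form, derivative.
-/

set_option autoImplicit false

open MeasureTheory Set Filter Topology

namespace CholB
namespace WM

open VOneM

theorem hasDerivAt_H {s : ℝ} (hs : 0 < s) : HasDerivAt H ((1 - Real.exp (-s)) / s) s := by
  have hr : 0 < s / 2 := by linarith
  have h1 : H =ᶠ[𝓝 s] fun t => H (s / 2) + ∫ u in (s / 2)..t, (1 - Real.exp (-u)) / u := by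
    filter_upwards [lt_mem_nhds (show s / 2 < s by linarith)] with t ht
    have := H_sub hr ht.le
    linarith
  have hint : IntervalIntegrable (fun u : ℝ => (1 - Real.exp (-u)) / u) volume (s / 2) s := by
    refine ContinuousOn.intervalIntegrable (ContinuousOn.div (by fun_prop) continuousOn_id ?_)
    intro t ht
    rw [uIcc_of_le (by linarith)] at ht
    exact (hr.trans_le ht.1).ne'
  have hcont : ContinuousAt (fun u : ℝ => (1 - Real.exp (-u)) / u) s :=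
    ContinuousAt.div (by fun_prop) continuousAt_id hs.ne'
  have hmeas : StronglyMeasurableAtFilter (fun u : ℝ => (1 - Real.exp (-u)) / u) (𝓝 s) volume :=
    (by fun_prop : Measurable fun u : ℝ => (1 - Real.exp (-u)) / u).stronglyMeasurable.stronglyMeasurableAtFilter
  have h2 := intervalIntegral.integral_hasDerivAt_right hint hmeas hcont
  exact (h2.const_add (H (s / 2))).congr_of_eventuallyEq h1

theorem G_eq_H (s : ℝ) : G s = Real.exp s * (H s - Real.log s) := by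
  unfold H
  rw [add_sub_cancel_right, ← mul_assoc, ← Real.exp_add, add_neg_cancel, Real.exp_zero, one_mul]

theorem hasDerivAt_G {s : ℝ} (hs : 0 < s) : HasDerivAt G (G s - 1 / s) s := by
  have h1 : G = fun s => Real.exp s * (H s - Real.log s) := funext G_eq_H
  have h2 := (Real.hasDerivAt_exp s).mul ((hasDerivAt_H hs).sub (Real.hasDerivAt_log hs.ne'))
  rw [h1]
  refine h2.congr_deriv ?_
  have h3 : Real.exp s * Real.exp (-s) = 1 := by
    rw [← Real.exp_add, add_neg_cancel, Real.exp_zero]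
  have h4 : s ≠ 0 := hs.ne'
  simp only [Pi.sub_apply]
  field_simp
  linear_combination -h3

/-- the factor `1 + x` -/
noncomputable def Kx (θ ξ : ℝ) : ℝ := 1 + θ / 2 * (1 + ξ)
/-- the second parameter -/
noncomputable def rx (τ ξ : ℝ) : ℝ := τ / (2 + τ) / (2 / (2 + τ) + ξ)
/-- the argument of `G` -/
noncomputable def sx (θ τ ξ : ℝ) : ℝ :=
  2 * (1 - θ) / θ * (1 + ξ) / (Kx θ ξ * (2 / (2 + τ) + ξ))
/-- the row value without `KL` -/
noncomputable def Wx (θ τ ξ : ℝ) : ℝ :=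
  Real.log (1 - θ) + (1 - θ) + (1 - sx θ τ ξ + rx τ ξ * sx θ τ ξ ^ 2) * G (sx θ τ ξ)
    + rx τ ξ * (1 - sx θ τ ξ) + 2 / (1 + ξ) * Real.log (Kx θ ξ)

theorem Kx_pos {θ ξ : ℝ} (hθ : 0 ≤ θ) (hξ : 0 ≤ ξ) : 0 < Kx θ ξ := by
  unfold Kx; positivity

theorem sx_pos {θ τ ξ : ℝ} (h0 : 0 < θ) (h1 : θ < 1) (hτ : 0 ≤ τ) (hξ : 0 ≤ ξ) :
    0 < sx θ τ ξ := by
  have h2 : 0 < 1 - θ := by linarith
  have := Kx_pos h0.le hξ
  unfold sx
  positivity

theorem rx_nonneg {τ ξ : ℝ} (hτ : 0 ≤ τ) (hξ : 0 ≤ ξ) : 0 ≤ rx τ ξ := by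
  unfold rx; positivity

/-- closed form of the row value for `θ < 1` -/
theorem Wrow_lt {θ τ ξ : ℝ} (h0 : 0 < θ) (h1' : θ < 1) (hτ : 0 ≤ τ) (hξ : 0 ≤ ξ) :
    Wrow θ τ (θ / 2 * (1 + ξ)) = Wx θ τ ξ - KL τ := by
  have h2τ : 0 < 2 + τ := by linarith
  have h1 : 0 < 1 + ξ := by linarith
  have hK : 0 < Kx θ ξ := Kx_pos h0.le hξ
  have hq : 0 < 2 / (2 + τ) := by positivity
  have hq1 : 0 < 2 / (2 + τ) + ξ := by linarith
  have hv : vrow θ τ (θ / 2 * (1 + ξ)) = Kx θ ξ * ((2 / (2 + τ) + ξ) / (1 + ξ)) := by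
    unfold vrow Kx
    have e1 : θ / 2 / (θ / 2 * (1 + ξ)) = 1 / (1 + ξ) := by field_simp
    rw [e1]
    field_simp
    ring
  have hv0 : 0 < Kx θ ξ * ((2 / (2 + τ) + ξ) / (1 + ξ)) := by positivity
  unfold Wrow
  rw [hv, V1_eq (by linarith) (by linarith) hv0]
  have e1 : (1 - θ) / (θ / 2 * (Kx θ ξ * ((2 / (2 + τ) + ξ) / (1 + ξ)))) = sx θ τ ξ := by
    unfold sx
    field_simp
  have e2 : (1 + θ / 2 * (1 + ξ) - Kx θ ξ * ((2 / (2 + τ) + ξ) / (1 + ξ)))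
      / (Kx θ ξ * ((2 / (2 + τ) + ξ) / (1 + ξ))) = rx τ ξ := by
    unfold rx
    rw [show 1 + θ / 2 * (1 + ξ) = Kx θ ξ from rfl, div_eq_div_iff hv0.ne' hq1.ne']
    field_simp
    ring
  have e3 : 2 * ((θ / 2 : ℝ) / (θ / 2 * (1 + ξ))) = 2 / (1 + ξ) := by field_simp
  rw [e1, e2, e3, show 1 + θ / 2 * (1 + ξ) = Kx θ ξ from rfl]
  unfold Wx
  ring

/-- minus the derivative of `sx` -/
noncomputable def sn (θ τ ξ : ℝ) : ℝ :=
  2 * (1 - θ) / θ * (τ / (2 + τ) * Kx θ ξ + θ / 2 * (1 + ξ) * (2 / (2 + τ) + ξ))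
    / ((Kx θ ξ * (2 / (2 + τ) + ξ)) * (Kx θ ξ * (2 / (2 + τ) + ξ)))
/-- minus the derivative of `rx` -/
noncomputable def rn (τ ξ : ℝ) : ℝ :=
  τ / (2 + τ) / ((2 / (2 + τ) + ξ) * (2 / (2 + τ) + ξ))

theorem hasDerivAt_Kx (θ ξ : ℝ) : HasDerivAt (Kx θ) (θ / 2) ξ := by
  have h := (((hasDerivAt_id ξ).const_add 1).const_mul (θ / 2)).const_add 1
  refine h.congr_deriv ?_
  ring

theorem hasDerivAt_rx {τ ξ : ℝ} (hτ : 0 ≤ τ) (hξ : 0 ≤ ξ) :
    HasDerivAt (rx τ) (-rn τ ξ) ξ := by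
  have hq : 0 < 2 / (2 + τ) := by positivity
  have hq1 : 2 / (2 + τ) + ξ ≠ 0 := by linarith
  have h := (hasDerivAt_const ξ (τ / (2 + τ))).div ((hasDerivAt_id ξ).const_add (2 / (2 + τ))) hq1
  refine h.congr_deriv ?_
  unfold rn
  simp only [id]
  rw [← sq]
  ring

theorem hasDerivAt_sx {θ τ ξ : ℝ} (h0 : 0 < θ) (hτ : 0 ≤ τ) (hξ : 0 ≤ ξ) :
    HasDerivAt (sx θ τ) (-sn θ τ ξ) ξ := by
  have h2τ : 0 < 2 + τ := by linarith
  have hq : 0 < 2 / (2 + τ) := by positivity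
  have hq1 : 0 < 2 / (2 + τ) + ξ := by linarith
  have hK : 0 < Kx θ ξ := Kx_pos h0.le hξ
  have h := ((((hasDerivAt_id ξ).const_add 1).const_mul (2 * (1 - θ) / θ))).div
    ((hasDerivAt_Kx θ ξ).mul ((hasDerivAt_id ξ).const_add (2 / (2 + τ))))
    (mul_pos hK hq1).ne'
  refine h.congr_deriv ?_
  unfold sn
  simp only [id, Pi.mul_apply]
  have e : (2 : ℝ) / (2 + τ) = 1 - τ / (2 + τ) := by field_simp; ring
  have e5 : Kx θ ξ = 1 + θ / 2 * (1 + ξ) := rfl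
  rw [← neg_div, ← sq]
  congr 1
  rw [e]
  have e6 : θ * θ⁻¹ = 1 := mul_inv_cancel₀ h0.ne'
  rw [e5]
  ring

/-- the derivative of `Wx` -/
noncomputable def Wd (θ τ ξ : ℝ) : ℝ :=
  sx θ τ ξ * sn θ τ ξ * G (sx θ τ ξ)
    - sx θ τ ξ * (rn τ ξ * sx θ τ ξ + sn θ τ ξ * (2 * rx τ ξ + rx τ ξ * sx θ τ ξ)) * G (sx θ τ ξ)
    + (1 - sx θ τ ξ + rx τ ξ * sx θ τ ξ ^ 2) * sn θ τ ξ / sx θ τ ξ
    - rn τ ξ * (1 - sx θ τ ξ) + rx τ ξ * sn θ τ ξ + θ / ((1 + ξ) * Kx θ ξ)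
    - 2 / (1 + ξ) ^ 2 * Real.log (Kx θ ξ)

theorem hasDerivAt_Wx {θ τ ξ : ℝ} (h0 : 0 < θ) (h1 : θ < 1) (hτ : 0 ≤ τ) (hξ : 0 ≤ ξ) :
    HasDerivAt (Wx θ τ) (Wd θ τ ξ) ξ := by
  have hs := hasDerivAt_sx (θ := θ) (τ := τ) (ξ := ξ) h0 hτ hξ
  have hr := hasDerivAt_rx (τ := τ) (ξ := ξ) hτ hξ
  have hsp := sx_pos h0 h1 hτ hξ
  have hG := (hasDerivAt_G hsp).comp ξ hs
  have hK := hasDerivAt_Kx θ ξ
  have hKp := Kx_pos h0.le hξ
  have hlog := hK.log hKp.ne'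
  have h1ξ : 1 + ξ ≠ 0 := by linarith
  have hA := (hs.const_sub 1).add (hr.mul (hs.pow 2))
  have hB := hr.mul (hs.const_sub 1)
  have hC := ((hasDerivAt_const ξ (2 : ℝ)).div ((hasDerivAt_id ξ).const_add 1) h1ξ).mul hlog
  have h := (((hasDerivAt_const ξ (Real.log (1 - θ) + (1 - θ))).add (hA.mul hG)).add hB).add hC
  refine (h.congr_deriv ?_)
  unfold Wd
  simp only [Function.comp_apply, id, Pi.mul_apply, Pi.pow_apply, Pi.add_apply, Pi.div_apply]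
  set s := sx θ τ ξ
  set g := G s
  set r := rx τ ξ
  set K := Kx θ ξ
  set L := Real.log K
  have hs0 : s ≠ 0 := hsp.ne'
  have hK0 : K ≠ 0 := hKp.ne'
  field_simp
  ring

/-- slope bound from the derivative -/
theorem Wrow_slope {θ τ lam a b : ℝ} (h0 : 0 < θ) (h1 : θ < 1) (hτ : 0 ≤ τ) (ha : 0 ≤ a)
    (h : ∀ ξ, a ≤ ξ → ξ ≤ b → 2 * Wd θ τ ξ ≤ lam * θ) (ξ η : ℝ) (h2 : a ≤ ξ) (h3 : ξ ≤ η)
    (h4 : η ≤ b) :
    2 * Wrow θ τ (θ / 2 * (1 + η)) - lam * (θ * (1 + η))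
      ≤ 2 * Wrow θ τ (θ / 2 * (1 + ξ)) - lam * (θ * (1 + ξ)) := by
  rw [Wrow_lt h0 h1 hτ (by linarith), Wrow_lt h0 h1 hτ (by linarith)]
  have hanti : AntitoneOn (fun x => 2 * Wx θ τ x - lam * (θ * (1 + x))) (Icc a b) := by
    have hd : ∀ x, 0 ≤ x → HasDerivAt (fun x => 2 * Wx θ τ x - lam * (θ * (1 + x)))
        (2 * Wd θ τ x - lam * θ) x := by
      intro x hx
      have := ((hasDerivAt_Wx h0 h1 hτ hx).const_mul 2).sub
        ((((hasDerivAt_id x).const_add 1).const_mul θ).const_mul lam)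
      refine this.congr_deriv ?_
      ring
    refine antitoneOn_of_deriv_nonpos (convex_Icc a b)
      (fun x hx => (hd x (ha.trans hx.1)).continuousAt.continuousWithinAt)
      (fun x hx => ?_) fun x hx => ?_
    · rw [interior_Icc] at hx
      exact (hd x (ha.trans hx.1.le)).differentiableAt.differentiableWithinAt
    · rw [interior_Icc] at hx
      rw [(hd x (ha.trans hx.1.le)).deriv]
      linarith [h x hx.1.le hx.2.le]
  have := hanti ⟨h2, h3.trans h4⟩ ⟨h2.trans h3, h4⟩ h3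
  simp only at this
  linarith

end WM
end CholB
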