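import Pool.Agent.Lib.MP_6947cd_al.B.VOne

/-!
Problem MP_6947cd_al (Chollet).  The function `G(s) = ∫ e^{-x}/(s+x)`, its relation with the row
function `V1` and with `KL`, and two-sided bounds.
-/

set_option autoImplicit false

open MeasureTheory Set Filter Topology

namespace CholB
namespace WM

open VOneM

/-- `G(s) = e^s E_1(s)` -/
noncomputable def G (s : ℝ) : ℝ := ∫ x in Ioi (0 : ℝ), Real.exp (-x) / (s + x)

/-- `q(s) = E [X/(s+X)]`, `X` of law `Gamma(2)` -/
noncomputable def q (s : ℝ) : ℝ := ∫ x in Ioi (0 : ℝ), x * Real.exp (-x) * (x / (s + x))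

theorem int_exp : IntegrableOn (fun x : ℝ => Real.exp (-x)) (Ioi 0) := by
  have := int_pow 0
  simpa using this

theorem val_exp : ∫ x in Ioi (0 : ℝ), Real.exp (-x) = 1 := by
  have := val_pow 0
  simpa using this

theorem int_G {s : ℝ} (hs : 0 < s) :
    IntegrableOn (fun x : ℝ => Real.exp (-x) / (s + x)) (Ioi 0) := by
  refine Integrable.mono' (int_exp.const_mul (1 / s)) ?_ ?_
  · exact (by fun_prop : Measurable fun x : ℝ => Real.exp (-x) / (s + x)).aestronglyMeasurable
  · refine (ae_restrict_iff' measurableSet_Ioi).2 (Eventually.of_forall fun x hx => ?_)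
    have hx' : (0 : ℝ) < x := hx
    rw [Real.norm_eq_abs, abs_of_pos (by positivity), one_div, mul_comm, ← div_eq_mul_inv]
    exact div_le_div_of_nonneg_left (Real.exp_pos _).le hs (by linarith)

theorem G_nonneg {s : ℝ} (hs : 0 < s) : 0 ≤ G s := by
  refine setIntegral_nonneg measurableSet_Ioi fun x hx => ?_
  have hx' : (0 : ℝ) < x := hx
  positivity

theorem q_eq {s : ℝ} (hs : 0 < s) : q s = 1 - s + s ^ 2 * G s := by
  have h1 : ∀ x ∈ Ioi (0 : ℝ), x * Real.exp (-x) * (x / (s + x))
      = x ^ 1 * Real.exp (-x) - s * Real.exp (-x) + s ^ 2 * (Real.exp (-x) / (s + x)) := by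
    intro x hx
    have hx' : (0 : ℝ) < x := hx
    field_simp
    ring
  unfold q G
  rw [setIntegral_congr_fun measurableSet_Ioi h1, integral_add, integral_sub, integral_const_mul,
    integral_const_mul, val_pow 1, val_exp]
  · simp
  · exact int_pow 1
  · exact int_exp.const_mul s
  · exact (int_pow 1).sub (int_exp.const_mul s)
  · exact (int_G hs).const_mul (s ^ 2)

theorem tendsto_lin_exp : Tendsto (fun x : ℝ => (1 + x) * Real.exp (-x)) atTop (𝓝 0) := by
  have h := (tendsto_pow_exp 0).add (tendsto_pow_exp 1)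
  rw [add_zero] at h
  refine h.congr fun x => ?_
  ring

theorem int_log1 {s : ℝ} (hs : 0 ≤ s) :
    IntegrableOn (fun x : ℝ => x * Real.exp (-x) * Real.log (s + x)) (Ioi 0) := by
  have h := int_log 0 hs zero_le_one (show 0 < s + 1 by linarith)
  refine h.congr_fun (fun x hx => ?_) measurableSet_Ioi
  simp

theorem ell_eq {s : ℝ} (hs : 0 < s) : L0 s 1 = Real.log s + 1 + (1 - s) * G s := by
  set f : ℝ → ℝ := fun x => -((1 + x) * Real.exp (-x)) * (Real.log (s + x) - Real.log s) with hf
  set f' : ℝ → ℝ := fun x => x * Real.exp (-x) * (Real.log (s + x) - Real.log s)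
    - (Real.exp (-x) + (1 - s) * (Real.exp (-x) / (s + x))) with hf'
  have hi1 : IntegrableOn (fun x : ℝ => x * Real.exp (-x) * (Real.log (s + x) - Real.log s))
      (Ioi 0) := by
    refine ((int_log1 hs.le).sub ((int_pow 1).mul_const (Real.log s))).congr_fun
      (fun x hx => ?_) measurableSet_Ioi
    simp only [Pi.sub_apply, pow_one]
    ring
  have hi2 : IntegrableOn (fun x : ℝ => Real.exp (-x) + (1 - s) * (Real.exp (-x) / (s + x)))
      (Ioi 0) := int_exp.add ((int_G hs).const_mul _)
  have hint : IntegrableOn f' (Ioi 0) := hi1.sub hi2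
  have hderiv : ∀ x ∈ Ioi (0 : ℝ), HasDerivAt f (f' x) x := by
    intro x hx
    have hx' : (0 : ℝ) < x := hx
    have h1 : HasDerivAt (fun x : ℝ => Real.exp (-x)) (-Real.exp (-x)) x := by
      simpa using (hasDerivAt_neg x).exp
    have h2 : HasDerivAt (fun x : ℝ => 1 + x) 1 x := (hasDerivAt_id x).const_add 1
    have h3 : HasDerivAt (fun x : ℝ => s + x) 1 x := (hasDerivAt_id x).const_add s
    have h4 := (h3.log (by linarith)).sub_const (Real.log s)
    have h5 := (h2.mul h1).neg.mul h4
    refine h5.congr_deriv ?_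
    simp only [hf', Pi.mul_apply, Pi.neg_apply]
    field_simp
    ring
  have hf0 : f 0 = 0 := by simp [hf]
  have hcont : ContinuousWithinAt f (Ici 0) 0 := by
    refine ContinuousAt.continuousWithinAt ?_
    refine ContinuousAt.mul (by fun_prop) (ContinuousAt.sub ?_ continuousAt_const)
    exact ContinuousAt.log (by fun_prop) (by simp [hs.ne'])
  have htop : Tendsto f atTop (𝓝 0) := by
    have hb : Tendsto (fun x : ℝ => (1 / s) * (x ^ 1 * Real.exp (-x) + x ^ 2 * Real.exp (-x)))
        atTop (𝓝 0) := by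
      have h := ((tendsto_pow_exp 1).add (tendsto_pow_exp 2)).const_mul (1 / s)
      simpa using h
    refine squeeze_zero_norm' ?_ hb
    filter_upwards [eventually_gt_atTop 0] with x hx
    have h1 : 0 ≤ Real.log (s + x) - Real.log s :=
      sub_nonneg.mpr (Real.log_le_log hs (by linarith))
    have h2 : Real.log (s + x) - Real.log s ≤ x / s := by
      rw [← Real.log_div (by linarith) hs.ne']
      have := Real.log_le_sub_one_of_pos (show 0 < (s + x) / s by positivity)
      have e : (s + x) / s - 1 = x / s := by field_simp; ring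
      linarith
    rw [Real.norm_eq_abs, hf]
    show |-((1 + x) * Real.exp (-x)) * (Real.log (s + x) - Real.log s)| ≤ _
    rw [abs_mul, abs_neg, abs_of_pos (by positivity), abs_of_nonneg h1]
    calc (1 + x) * Real.exp (-x) * (Real.log (s + x) - Real.log s)
        ≤ (1 + x) * Real.exp (-x) * (x / s) := mul_le_mul_of_nonneg_left h2 (by positivity)
      _ = _ := by field_simp
  have hmain := integral_Ioi_of_hasDerivAt_of_tendsto hcont hderiv hint htop
  rw [hf0, sub_zero] at hmain
  have hsplit : ∫ x in Ioi (0 : ℝ), f' x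
      = (∫ x in Ioi (0 : ℝ), x * Real.exp (-x) * (Real.log (s + x) - Real.log s))
        - ∫ x in Ioi (0 : ℝ), (Real.exp (-x) + (1 - s) * (Real.exp (-x) / (s + x))) :=
    integral_sub hi1 hi2
  have h2 : ∫ x in Ioi (0 : ℝ), (Real.exp (-x) + (1 - s) * (Real.exp (-x) / (s + x)))
      = 1 + (1 - s) * G s := by
    rw [integral_add int_exp ((int_G hs).const_mul _), val_exp, integral_const_mul]
    rfl
  have h1 : ∫ x in Ioi (0 : ℝ), x * Real.exp (-x) * (Real.log (s + x) - Real.log s)
      = L0 s 1 - Real.log s := by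
    have e : ∀ x ∈ Ioi (0 : ℝ), x * Real.exp (-x) * (Real.log (s + x) - Real.log s)
        = x * Real.exp (-x) * Real.log (s + x) - x ^ 1 * Real.exp (-x) * Real.log s := by
      intro x _; ring
    rw [setIntegral_congr_fun measurableSet_Ioi e,
      integral_sub (int_log1 hs.le) ((int_pow 1).mul_const _), integral_mul_const, val_pow 1]
    unfold L0
    simp
  rw [hsplit, h1, h2] at hmain
  linarith

/-- scaling of `L0` -/
theorem L0_scale {a c : ℝ} (ha : 0 < a) (hc : 0 < c) : L0 a c = Real.log c + L0 (a / c) 1 := by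
  have hs : 0 < a / c := div_pos ha hc
  have e : ∀ x ∈ Ioi (0 : ℝ), x * Real.exp (-x) * Real.log (a + c * x)
      = x ^ 1 * Real.exp (-x) * Real.log c + x * Real.exp (-x) * Real.log (a / c + x) := by
    intro x hx
    have hx' : (0 : ℝ) < x := hx
    have : a + c * x = c * (a / c + x) := by field_simp
    rw [this, Real.log_mul hc.ne' (by positivity)]
    ring
  unfold L0
  rw [setIntegral_congr_fun measurableSet_Ioi e,
    integral_add ((int_pow 1).mul_const _) (int_log1 hs.le), integral_mul_const, val_pow 1]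
  simp

/-- scaling of the fraction -/
theorem q_scale {a c : ℝ} (ha : 0 < a) (hc : 0 < c) :
    ∫ x in Ioi (0 : ℝ), x * Real.exp (-x) * (c * x / (a + c * x)) = q (a / c) := by
  unfold q
  refine setIntegral_congr_fun measurableSet_Ioi fun x hx => ?_
  have hx' : (0 : ℝ) < x := hx
  have : a + c * x = c * (a / c + x) := by field_simp
  show x * Real.exp (-x) * (c * x / (a + c * x)) = x * Real.exp (-x) * (x / (a / c + x))
  rw [this, mul_div_mul_left _ _ hc.ne']

/-- the row function through `G` -/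
theorem V1_eq {a b K v : ℝ} (ha : 0 < a) (hb : 0 < b) (hv : 0 < v) :
    V1 a b K v = Real.log a + 1 + (1 - a / (b * v)) * G (a / (b * v))
      + (K - v) / v * (1 - a / (b * v) + (a / (b * v)) ^ 2 * G (a / (b * v))) := by
  have hbv : 0 < b * v := mul_pos hb hv
  have hs : 0 < a / (b * v) := div_pos ha hbv
  rw [V1_split ha.le hb.le (by linarith) hv, L0_scale ha hbv, ell_eq hs]
  have e : ∫ x in Ioi (0 : ℝ), x * Real.exp (-x) * (b * x / (a + b * v * x)) =
      (1 / v) * ∫ x in Ioi (0 : ℝ), x * Real.exp (-x) * ((b * v) * x / (a + (b * v) * x)) := by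
    rw [← integral_const_mul]
    refine setIntegral_congr_fun measurableSet_Ioi (fun x hx => ?_)
    show x * Real.exp (-x) * (b * x / (a + b * v * x))
      = 1 / v * (x * Real.exp (-x) * (b * v * x / (a + b * v * x)))
    rw [frac_eq hv]
    ring
  rw [e, q_scale ha hbv, q_eq hs, Real.log_div ha.ne' hbv.ne']
  ring

/-- `KL` through `G` -/
theorem KL_eq {t : ℝ} (h0 : 0 < t) (h1 : t < 1) :
    KL t = 2 * Real.log (1 + t / 2) + Real.log (1 - t) + t / 2
      + (2 * t - 1) * G (2 * (1 - t) / t) := by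
  have ha : 0 < 1 - t := by linarith
  have hc : 0 < t / 2 := by linarith
  have hs : 0 < (1 - t) / (t / 2) := div_pos ha hc
  have hes : (1 - t) / (t / 2) = 2 * (1 - t) / t := by field_simp
  have h2 : ∫ x in Ioi (0 : ℝ), x * Real.exp (-x) *
      ((1 - t + t * x / 2) * Real.log (1 - t + t * x / 2))
      = (1 - t) * L0 (1 - t) (t / 2) + t * L1 (1 - t) (t / 2) := by
    unfold L0 L1
    rw [← integral_const_mul, ← integral_const_mul, ← integral_add]
    · refine setIntegral_congr_fun measurableSet_Ioi fun x _ => ?_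
      have e : 1 - t + t * x / 2 = 1 - t + t / 2 * x := by ring
      show x * Real.exp (-x) * ((1 - t + t * x / 2) * Real.log (1 - t + t * x / 2))
        = (1 - t) * (x * Real.exp (-x) * Real.log (1 - t + t / 2 * x))
          + t * (x ^ 2 / 2 * Real.exp (-x) * Real.log (1 - t + t / 2 * x))
      rw [e]
      ring
    · refine Integrable.const_mul ?_ _
      refine (int_log 0 ha.le hc.le (by linarith)).congr_fun (fun x _ => ?_) measurableSet_Ioi
      simp
    · refine Integrable.const_mul ?_ _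
      have hI : IntegrableOn (fun x : ℝ => 1 / 2 * (x ^ (1 + 1) * Real.exp (-x)
          * Real.log (1 - t + t / 2 * x))) (Ioi 0) :=
        (int_log 1 ha.le hc.le (by linarith)).const_mul (1 / 2)
      refine hI.congr_fun (fun x _ => ?_) measurableSet_Ioi
      show 1 / 2 * (x ^ (1 + 1) * Real.exp (-x) * Real.log (1 - t + t / 2 * x))
        = x ^ 2 / 2 * Real.exp (-x) * Real.log (1 - t + t / 2 * x)
      ring
  have h3 := parts ha.le hc.le (by linarith : 0 < 1 - t + t / 2)
  rw [q_scale ha hc, q_eq hs] at h3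
  have h4 : L0 (1 - t) (t / 2) = Real.log (t / 2)
      + (Real.log ((1 - t) / (t / 2)) + 1 + (1 - (1 - t) / (t / 2)) * G ((1 - t) / (t / 2))) := by
    rw [L0_scale ha hc, ell_eq hs]
  rw [Real.log_div ha.ne' hc.ne'] at h4
  unfold KL
  rw [h2]
  rw [← hes]
  set g := G ((1 - t) / (t / 2)) with hg
  have e5 : (1 - t) * L0 (1 - t) (t / 2) + t * L1 (1 - t) (t / 2)
      = L0 (1 - t) (t / 2) + t / 2 * (2 * (L1 (1 - t) (t / 2) - L0 (1 - t) (t / 2))) := by ring
  rw [e5, h3, h4]
  have ht : t ≠ 0 := h0.ne'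
  field_simp
  ring

/-- `KL (1/2)` -/
theorem KL_half : KL (1 / 2) = 2 * Real.log (5 / 4) - Real.log 2 + 1 / 4 := by
  rw [KL_eq (by norm_num) (by norm_num)]
  have h1 : Real.log (1 - 1 / 2) = -Real.log 2 := by
    rw [show (1 : ℝ) - 1 / 2 = 2⁻¹ by norm_num, Real.log_inv]
  rw [h1, show (1 : ℝ) + 1 / 2 / 2 = 5 / 4 by norm_num]
  ring

/-! ### bounds of `G` -/

/-- `e^{-s} G(s)` as an exponential integral -/
theorem exp_G {s : ℝ} (_hs : 0 < s) : Real.exp (-s) * G s = ∫ t in Ioi s, Real.exp (-t) / t := by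
  have h := (measurePreserving_add_right (volume : Measure ℝ) s).setIntegral_preimage_emb
    (measurableEmbedding_addRight s) (fun t => Real.exp (-t) / t) (Ioi s)
  rw [← h]
  have hpre : (fun x : ℝ => x + s) ⁻¹' Ioi s = Ioi 0 := by
    ext x; simp
  rw [hpre]
  unfold G
  rw [← integral_const_mul]
  refine setIntegral_congr_fun measurableSet_Ioi fun x _ => ?_
  show Real.exp (-s) * (Real.exp (-x) / (s + x)) = Real.exp (-(x + s)) / (x + s)
  rw [neg_add, Real.exp_add, add_comm s x]
  ring

theorem int_E1 {s : ℝ} (hs : 0 < s) : IntegrableOn (fun t : ℝ => Real.exp (-t) / t) (Ioi s) := by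
  have h0 : IntegrableOn (fun x : ℝ => Real.exp (-x)) (Ioi s) :=
    int_exp.mono_set (Ioi_subset_Ioi hs.le)
  refine Integrable.mono' (h0.const_mul (1 / s)) ?_ ?_
  · exact (by fun_prop : Measurable fun x : ℝ => Real.exp (-x) / x).aestronglyMeasurable
  · refine (ae_restrict_iff' measurableSet_Ioi).2 (Eventually.of_forall fun x hx => ?_)
    have hx' : s < x := hx
    have hx0 : 0 < x := hs.trans hx'
    rw [Real.norm_eq_abs, abs_of_pos (by positivity), one_div, mul_comm, ← div_eq_mul_inv]
    exact div_le_div_of_nonneg_left (Real.exp_pos _).le hs hx'.le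

/-- `H(s) = e^{-s} G(s) + log s` -/
noncomputable def H (s : ℝ) : ℝ := Real.exp (-s) * G s + Real.log s

theorem H_sub {r s : ℝ} (hr : 0 < r) (hrs : r ≤ s) :
    H s - H r = ∫ t in r..s, (1 - Real.exp (-t)) / t := by
  have hs : 0 < s := hr.trans_le hrs
  have h1 := intervalIntegral.integral_Ioi_sub_Ioi (int_E1 hr) hrs
  have h2 : ∫ t in r..s, 1 / t = Real.log (s / r) := integral_one_div_of_pos hr hs
  have hne : ∀ t ∈ uIcc r s, t ≠ 0 := fun t ht => by
    rw [uIcc_of_le hrs] at ht
    exact (hr.trans_le ht.1).ne'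
  have hi1 : IntervalIntegrable (fun t : ℝ => 1 / t) volume r s :=
    ContinuousOn.intervalIntegrable (continuousOn_const.div continuousOn_id hne)
  have hi2 : IntervalIntegrable (fun t : ℝ => Real.exp (-t) / t) volume r s :=
    ContinuousOn.intervalIntegrable (ContinuousOn.div (by fun_prop) continuousOn_id hne)
  have h3 : ∫ t in r..s, (1 - Real.exp (-t)) / t
      = (∫ t in r..s, 1 / t) - ∫ t in r..s, Real.exp (-t) / t := by
    rw [← intervalIntegral.integral_sub hi1 hi2]
    refine intervalIntegral.integral_congr fun t _ => ?_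
    show (1 - Real.exp (-t)) / t = 1 / t - Real.exp (-t) / t
    rw [sub_div]
  rw [h3, h2, ← h1, ← exp_G hr, ← exp_G hs, Real.log_div hs.ne' hr.ne']
  unfold H
  ring

theorem L0_zero : L0 0 1 = 1 - Real.eulerMascheroniConstant := by
  rw [← val_log]
  unfold L0
  refine setIntegral_congr_fun measurableSet_Ioi fun x _ => ?_
  simp

theorem L0_near {s : ℝ} (hs : 0 < s) : L0 0 1 ≤ L0 s 1 ∧ L0 s 1 ≤ L0 0 1 + s := by
  have hi0 : IntegrableOn (fun x : ℝ => x * Real.exp (-x) * Real.log (0 + x)) (Ioi 0) :=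
    int_log1 le_rfl
  have e0 : L0 0 1 = ∫ x in Ioi (0 : ℝ), x * Real.exp (-x) * Real.log (0 + x) := by
    unfold L0
    refine setIntegral_congr_fun measurableSet_Ioi fun x _ => ?_
    simp
  have e1 : L0 s 1 = ∫ x in Ioi (0 : ℝ), x * Real.exp (-x) * Real.log (s + x) := by
    unfold L0
    refine setIntegral_congr_fun measurableSet_Ioi fun x _ => ?_
    simp
  constructor
  · rw [e0, e1]
    refine setIntegral_mono_on hi0 (int_log1 hs.le) measurableSet_Ioi fun x hx => ?_
    have hx' : (0 : ℝ) < x := hx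
    refine mul_le_mul_of_nonneg_left (Real.log_le_log (by linarith) (by linarith)) (by positivity)
  · have h2 : ∫ x in Ioi (0 : ℝ), (x * Real.exp (-x) * Real.log (0 + x) + s * Real.exp (-x))
        = L0 0 1 + s := by
      rw [integral_add hi0 (int_exp.const_mul s), integral_const_mul, val_exp, e0, mul_one]
    rw [← h2, e1]
    refine setIntegral_mono_on (int_log1 hs.le) (hi0.add (int_exp.const_mul s)) measurableSet_Ioi
      fun x hx => ?_
    have hx' : (0 : ℝ) < x := hx
    have h3 : Real.log (s + x) - Real.log (0 + x) ≤ s / x := by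
      rw [zero_add, ← Real.log_div (by linarith) hx'.ne']
      have := Real.log_le_sub_one_of_pos (show 0 < (s + x) / x by positivity)
      have e : (s + x) / x - 1 = s / x := by field_simp; ring
      linarith
    have h4 := mul_le_mul_of_nonneg_left h3 (show 0 ≤ x * Real.exp (-x) by positivity)
    have e : x * Real.exp (-x) * (s / x) = s * Real.exp (-x) := by field_simp
    show x * Real.exp (-x) * Real.log (s + x)
      ≤ x * Real.exp (-x) * Real.log (0 + x) + s * Real.exp (-x)
    linarith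

theorem tendsto_H : Tendsto H (𝓝[>] 0) (𝓝 (-Real.eulerMascheroniConstant)) := by
  set c := Real.eulerMascheroniConstant
  have hlog : Tendsto (fun s : ℝ => s * Real.log s) (𝓝[>] 0) (𝓝 0) := by
    have h := tendsto_log_mul_rpow_nhdsGT_zero (r := 1) zero_lt_one
    refine h.congr' ?_
    filter_upwards [self_mem_nhdsWithin] with s _
    rw [Real.rpow_one, mul_comm]
  have hid : Tendsto (fun s : ℝ => s) (𝓝[>] 0) (𝓝 0) := nhdsWithin_le_nhds
  have hL : Tendsto (fun s : ℝ => L0 s 1) (𝓝[>] 0) (𝓝 (1 - c)) := by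
    refine tendsto_of_tendsto_of_tendsto_of_le_of_le' (g := fun _ => L0 0 1)
      (h := fun s => L0 0 1 + s) ?_ ?_ ?_ ?_
    · rw [L0_zero]; exact tendsto_const_nhds
    · have := (tendsto_const_nhds (x := L0 0 1)).add hid
      rw [add_zero, L0_zero] at this
      rw [L0_zero]
      exact this
    · filter_upwards [self_mem_nhdsWithin] with s hs using (L0_near hs).1
    · filter_upwards [self_mem_nhdsWithin] with s hs using (L0_near hs).2
  have hIoo : Ioo (0 : ℝ) (1 / 2) ∈ 𝓝[>] (0 : ℝ) := Ioo_mem_nhdsGT (by norm_num)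
  -- G + log
  have hG : Tendsto (fun s : ℝ => G s + Real.log s) (𝓝[>] 0) (𝓝 (-c)) := by
    have h1 : Tendsto (fun s : ℝ => (L0 s 1 - 1 - s * Real.log s) / (1 - s)) (𝓝[>] 0)
        (𝓝 ((1 - c - 1 - 0) / (1 - 0))) :=
      ((hL.sub_const 1).sub hlog).div (tendsto_const_nhds.sub hid) (by norm_num)
    have e : (1 - c - 1 - 0) / (1 - 0) = -c := by ring
    rw [e] at h1
    refine h1.congr' ?_
    filter_upwards [hIoo] with s hs
    have h2 := ell_eq hs.1
    have h3 : 1 - s ≠ 0 := by have := hs.2; intro h; linarith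
    rw [div_eq_iff h3, h2]
    ring
  have hsG : Tendsto (fun s : ℝ => s * G s) (𝓝[>] 0) (𝓝 0) := by
    have h1 := (hid.mul hG).sub hlog
    rw [zero_mul, sub_zero] at h1
    refine h1.congr fun s => ?_
    ring
  have hrem : Tendsto (fun s : ℝ => (1 - Real.exp (-s)) * G s) (𝓝[>] 0) (𝓝 0) := by
    refine tendsto_of_tendsto_of_tendsto_of_le_of_le' (g := fun _ => (0 : ℝ))
      (h := fun s => s * G s) tendsto_const_nhds hsG ?_ ?_
    · filter_upwards [self_mem_nhdsWithin] with s hs
      have hs' : (0 : ℝ) < s := hs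
      refine mul_nonneg ?_ (G_nonneg hs')
      have : Real.exp (-s) ≤ 1 := Real.exp_le_one_iff.mpr (by linarith)
      linarith
    · filter_upwards [self_mem_nhdsWithin] with s hs
      have hs' : (0 : ℝ) < s := hs
      refine mul_le_mul_of_nonneg_right ?_ (G_nonneg hs')
      have := Real.add_one_le_exp (-s)
      linarith
  have h5 := hG.sub hrem
  rw [sub_zero] at h5
  refine h5.congr fun s => ?_
  unfold H
  ring

/-- Taylor bounds of `e^{-t}` -/
theorem exp_taylor {t : ℝ} (ht : 0 ≤ t) :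
    1 - t + t ^ 2 / 2 - t ^ 3 / 6 + t ^ 4 / 24 - t ^ 5 / 120 ≤ Real.exp (-t) ∧
    Real.exp (-t) ≤ 1 - t + t ^ 2 / 2 - t ^ 3 / 6 + t ^ 4 / 24 := by
  -- a chain of monotonicity arguments
  have key : ∀ (f f' : ℝ → ℝ), (∀ x, HasDerivAt f (f' x) x) → (∀ x, 0 ≤ x → 0 ≤ f' x) →
      f 0 = 0 → ∀ x, 0 ≤ x → 0 ≤ f x := by
    intro f f' hd hf' h0 x hx
    have hm : MonotoneOn f (Ici 0) := by
      refine monotoneOn_of_deriv_nonneg (convex_Ici 0)
        (fun x _ => (hd x).continuousAt.continuousWithinAt)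
        (fun x _ => (hd x).differentiableAt.differentiableWithinAt) fun x hx => ?_
      rw [interior_Ici] at hx
      rw [(hd x).deriv]
      exact hf' x (le_of_lt hx)
    have := hm (mem_Ici.mpr le_rfl) (mem_Ici.mpr hx) hx
    rwa [h0] at this
  have he : ∀ x : ℝ, HasDerivAt (fun x : ℝ => Real.exp (-x)) (-Real.exp (-x)) x := fun x => by
    simpa using (hasDerivAt_neg x).exp
  have hp : ∀ (n : ℕ) (x : ℝ), HasDerivAt (fun x : ℝ => x ^ (n + 1)) (((n : ℝ) + 1) * x ^ n) x := by
    intro n x
    simpa using hasDerivAt_pow (n + 1) x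
  have r1 : ∀ x : ℝ, 0 ≤ x → 0 ≤ 1 - Real.exp (-x) := by
    intro x hx
    have : Real.exp (-x) ≤ 1 := Real.exp_le_one_iff.mpr (by linarith)
    linarith
  have r2 : ∀ x : ℝ, 0 ≤ x → 0 ≤ Real.exp (-x) - 1 + x := by
    refine key _ (fun x => 1 - Real.exp (-x)) (fun x => ?_) r1 (by simp)
    have := ((he x).sub_const 1).add (hasDerivAt_id x)
    refine this.congr_deriv ?_
    ring
  have r3 : ∀ x : ℝ, 0 ≤ x → 0 ≤ 1 - x + x ^ 2 / 2 - Real.exp (-x) := by
    refine key _ (fun x => Real.exp (-x) - 1 + x) (fun x => ?_) r2 (by simp)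
    have := ((((hasDerivAt_id x).const_sub 1).add ((hp 1 x).div_const 2))).sub (he x)
    refine this.congr_deriv ?_
    push_cast
    ring
  have r4 : ∀ x : ℝ, 0 ≤ x → 0 ≤ Real.exp (-x) - (1 - x + x ^ 2 / 2 - x ^ 3 / 6) := by
    refine key _ (fun x => 1 - x + x ^ 2 / 2 - Real.exp (-x)) (fun x => ?_) r3 (by simp)
    have := (he x).sub ((((hasDerivAt_id x).const_sub 1).add ((hp 1 x).div_const 2)).sub
      ((hp 2 x).div_const 6))
    refine this.congr_deriv ?_
    push_cast
    ring
  have r5 : ∀ x : ℝ, 0 ≤ x → 0 ≤ 1 - x + x ^ 2 / 2 - x ^ 3 / 6 + x ^ 4 / 24 - Real.exp (-x) := by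
    refine key _ (fun x => Real.exp (-x) - (1 - x + x ^ 2 / 2 - x ^ 3 / 6)) (fun x => ?_) r4
      (by simp)
    have := (((((hasDerivAt_id x).const_sub 1).add ((hp 1 x).div_const 2)).sub
      ((hp 2 x).div_const 6)).add ((hp 3 x).div_const 24)).sub (he x)
    refine this.congr_deriv ?_
    push_cast
    ring
  have r6 : ∀ x : ℝ, 0 ≤ x → 0 ≤ Real.exp (-x)
      - (1 - x + x ^ 2 / 2 - x ^ 3 / 6 + x ^ 4 / 24 - x ^ 5 / 120) := by
    refine key _ (fun x => 1 - x + x ^ 2 / 2 - x ^ 3 / 6 + x ^ 4 / 24 - Real.exp (-x))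
      (fun x => ?_) r5 (by simp)
    have := (he x).sub (((((((hasDerivAt_id x).const_sub 1).add ((hp 1 x).div_const 2)).sub
      ((hp 2 x).div_const 6)).add ((hp 3 x).div_const 24))).sub ((hp 4 x).div_const 120))
    refine this.congr_deriv ?_
    push_cast
    ring
  have h5 := r5 t ht
  have h6 := r6 t ht
  constructor <;> linarith

/-- upper polynomial -/
noncomputable def Pu (s : ℝ) : ℝ := s - s ^ 2 / 4 + s ^ 3 / 18 - s ^ 4 / 96 + s ^ 5 / 600
/-- lower polynomial -/
noncomputable def Pd (s : ℝ) : ℝ := s - s ^ 2 / 4 + s ^ 3 / 18 - s ^ 4 / 96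

theorem H_bounds {s : ℝ} (hs : 0 < s) :
    -Real.eulerMascheroniConstant + Pd s ≤ H s ∧ H s ≤ -Real.eulerMascheroniConstant + Pu s := by
  have hint : ∀ r, 0 < r → r ≤ s → IntervalIntegrable (fun t : ℝ => (1 - Real.exp (-t)) / t)
      volume r s := by
    intro r hr hrs
    refine ContinuousOn.intervalIntegrable (ContinuousOn.div (by fun_prop) continuousOn_id ?_)
    intro t ht
    rw [uIcc_of_le hrs] at ht
    exact (hr.trans_le ht.1).ne'
  have hu : ∀ r, 0 < r → r ≤ s → H s ≤ H r + (Pu s - Pu r) := by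
    intro r hr hrs
    have h1 := H_sub hr hrs
    have h2 : ∫ t in r..s, (1 - t / 2 + t ^ 2 / 6 - t ^ 3 / 24 + t ^ 4 / 120) = Pu s - Pu r := by
      refine intervalIntegral.integral_eq_sub_of_hasDerivAt (fun t _ => ?_)
        (Continuous.intervalIntegrable (by fun_prop) _ _)
      have hp : ∀ (n : ℕ) (x : ℝ), HasDerivAt (fun x : ℝ => x ^ (n + 1))
          (((n : ℝ) + 1) * x ^ n) x := by
        intro n x
        simpa using hasDerivAt_pow (n + 1) x
      have := ((((hasDerivAt_id t).sub ((hp 1 t).div_const 4)).add ((hp 2 t).div_const 18)).sub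
        ((hp 3 t).div_const 96)).add ((hp 4 t).div_const 600)
      refine this.congr_deriv ?_
      push_cast
      ring
    have h3 : ∫ t in r..s, (1 - Real.exp (-t)) / t ≤
        ∫ t in r..s, (1 - t / 2 + t ^ 2 / 6 - t ^ 3 / 24 + t ^ 4 / 120) := by
      refine intervalIntegral.integral_mono_on hrs (hint r hr hrs)
        (Continuous.intervalIntegrable (by fun_prop) _ _) fun t ht => ?_
      have ht0 : 0 < t := hr.trans_le ht.1
      rw [div_le_iff₀ ht0]
      have := (exp_taylor ht0.le).1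
      nlinarith
    linarith
  have hl : ∀ r, 0 < r → r ≤ s → H r + (Pd s - Pd r) ≤ H s := by
    intro r hr hrs
    have h1 := H_sub hr hrs
    have h2 : ∫ t in r..s, (1 - t / 2 + t ^ 2 / 6 - t ^ 3 / 24) = Pd s - Pd r := by
      refine intervalIntegral.integral_eq_sub_of_hasDerivAt (fun t _ => ?_)
        (Continuous.intervalIntegrable (by fun_prop) _ _)
      have hp : ∀ (n : ℕ) (x : ℝ), HasDerivAt (fun x : ℝ => x ^ (n + 1))
          (((n : ℝ) + 1) * x ^ n) x := by
        intro n x
        simpa using hasDerivAt_pow (n + 1) x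
      have := (((hasDerivAt_id t).sub ((hp 1 t).div_const 4)).add ((hp 2 t).div_const 18)).sub
        ((hp 3 t).div_const 96)
      refine this.congr_deriv ?_
      push_cast
      ring
    have h3 : ∫ t in r..s, (1 - t / 2 + t ^ 2 / 6 - t ^ 3 / 24)
        ≤ ∫ t in r..s, (1 - Real.exp (-t)) / t := by
      refine intervalIntegral.integral_mono_on hrs
        (Continuous.intervalIntegrable (by fun_prop) _ _) (hint r hr hrs) fun t ht => ?_
      have ht0 : 0 < t := hr.trans_le ht.1
      rw [le_div_iff₀ ht0]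
      have := (exp_taylor ht0.le).2
      nlinarith
    linarith
  have hPu : Tendsto Pu (𝓝[>] 0) (𝓝 0) := by
    have : Continuous Pu := by unfold Pu; fun_prop
    have h := (this.tendsto 0).mono_left (nhdsWithin_le_nhds (s := Ioi (0 : ℝ)))
    simpa [Pu] using h
  have hPd : Tendsto Pd (𝓝[>] 0) (𝓝 0) := by
    have : Continuous Pd := by unfold Pd; fun_prop
    have h := (this.tendsto 0).mono_left (nhdsWithin_le_nhds (s := Ioi (0 : ℝ)))
    simpa [Pd] using h
  have hev : Ioc (0 : ℝ) s ∈ 𝓝[>] (0 : ℝ) := Ioc_mem_nhdsGT hs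
  constructor
  · have h1 := tendsto_H.add (tendsto_const_nhds (x := Pd s) |>.sub hPd)
    rw [sub_zero] at h1
    refine le_of_tendsto h1 ?_
    filter_upwards [hev] with r hr using hl r hr.1 hr.2
  · have h1 := tendsto_H.add (tendsto_const_nhds (x := Pu s) |>.sub hPu)
    rw [sub_zero] at h1
    refine ge_of_tendsto h1 ?_
    filter_upwards [hev] with r hr using hu r hr.1 hr.2

/-- two-sided bounds of `G` -/
theorem G_bounds {s : ℝ} (hs : 0 < s) :
    Real.exp s * (-Real.eulerMascheroniConstant - Real.log s + Pd s) ≤ G s ∧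
    G s ≤ Real.exp s * (-Real.eulerMascheroniConstant - Real.log s + Pu s) := by
  obtain ⟨h1, h2⟩ := H_bounds hs
  have e : G s = Real.exp s * (H s - Real.log s) := by
    unfold H
    rw [add_sub_cancel_right, ← mul_assoc, ← Real.exp_add, add_neg_cancel, Real.exp_zero, one_mul]
  rw [e]
  have hp := (Real.exp_pos s).le
  exact ⟨mul_le_mul_of_nonneg_left (by linarith) hp, mul_le_mul_of_nonneg_left (by linarith) hp⟩

end WM
end CholB
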