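import Pool.Agent.Lib.MP_6947cd_al.W.Deriv

/-!
Problem MP_6947cd_al (Chollet).  Values of `KL` at `3/5` and `1/4`.
-/

set_option autoImplicit false

open MeasureTheory Set Filter Topology

namespace CholB
namespace WM

/-- lower Taylor bound of `e^{-t}`, seven terms -/
theorem exp_taylor7 {t : ℝ} (ht : 0 ≤ t) :
    1 - t + t ^ 2 / 2 - t ^ 3 / 6 + t ^ 4 / 24 - t ^ 5 / 120 + t ^ 6 / 720 - t ^ 7 / 5040
      ≤ Real.exp (-t) := by
  have key : ∀ (f f' : ℝ → ℝ), (∀ x, HasDerivAt f (f' x) x) → (∀ x, 0 ≤ x → 0 ≤ f' x) →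
      f 0 = 0 → ∀ x, 0 ≤ x → 0 ≤ f x := by
    intro f f' hd hf' h0 x hx
    have hm : MonotoneOn f (Ici 0) := by
      refine monotoneOn_of_deriv_nonneg (convex_Ici 0)
        (fun x _ => (hd x).continuousAt.continuousWithinAt)
        (fun x _ => (hd x).differentiableAt.differentiableWithinAt) fun x hx => ?_
      rw [interior_Ici] at hx
      rw [(hd x).deriv]
      exact hf' x (le_of_lt hx)
    have := hm (mem_Ici.mpr le_rfl) (mem_Ici.mpr hx) hx
    rwa [h0] at this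
  have he : ∀ x : ℝ, HasDerivAt (fun x : ℝ => Real.exp (-x)) (-Real.exp (-x)) x := fun x => by
    simpa using (hasDerivAt_neg x).exp
  have hp : ∀ (n : ℕ) (x : ℝ), HasDerivAt (fun x : ℝ => x ^ (n + 1)) (((n : ℝ) + 1) * x ^ n) x := by
    intro n x
    simpa using hasDerivAt_pow (n + 1) x
  have r6 : ∀ x : ℝ, 0 ≤ x → 0 ≤ Real.exp (-x)
      - (1 - x + x ^ 2 / 2 - x ^ 3 / 6 + x ^ 4 / 24 - x ^ 5 / 120) := by
    intro x hx
    linarith [(exp_taylor hx).1]
  have r7 : ∀ x : ℝ, 0 ≤ x → 0 ≤ 1 - x + x ^ 2 / 2 - x ^ 3 / 6 + x ^ 4 / 24 - x ^ 5 / 120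
      + x ^ 6 / 720 - Real.exp (-x) := by
    refine key _ (fun x => Real.exp (-x)
      - (1 - x + x ^ 2 / 2 - x ^ 3 / 6 + x ^ 4 / 24 - x ^ 5 / 120)) (fun x => ?_) r6 (by simp)
    have := (((((((hasDerivAt_id x).const_sub 1).add ((hp 1 x).div_const 2)).sub
      ((hp 2 x).div_const 6)).add ((hp 3 x).div_const 24)).sub ((hp 4 x).div_const 120)).add
      ((hp 5 x).div_const 720)).sub (he x)
    refine this.congr_deriv ?_
    push_cast
    ring
  have r8 : ∀ x : ℝ, 0 ≤ x → 0 ≤ Real.exp (-x) - (1 - x + x ^ 2 / 2 - x ^ 3 / 6 + x ^ 4 / 24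
      - x ^ 5 / 120 + x ^ 6 / 720 - x ^ 7 / 5040) := by
    refine key _ (fun x => 1 - x + x ^ 2 / 2 - x ^ 3 / 6 + x ^ 4 / 24 - x ^ 5 / 120
      + x ^ 6 / 720 - Real.exp (-x)) (fun x => ?_) r7 (by simp)
    have := (he x).sub ((((((((hasDerivAt_id x).const_sub 1).add ((hp 1 x).div_const 2)).sub
      ((hp 2 x).div_const 6)).add ((hp 3 x).div_const 24)).sub ((hp 4 x).div_const 120)).add
      ((hp 5 x).div_const 720)).sub ((hp 6 x).div_const 5040))
    refine this.congr_deriv ?_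
    push_cast
    ring
  have h8 := r8 t ht
  linarith

/-- upper polynomial, seven terms -/
noncomputable def Pu7 (s : ℝ) : ℝ := s - s ^ 2 / 4 + s ^ 3 / 18 - s ^ 4 / 96 + s ^ 5 / 600
  - s ^ 6 / 4320 + s ^ 7 / 35280

theorem H_le7 {s : ℝ} (hs : 0 < s) : H s ≤ -Real.eulerMascheroniConstant + Pu7 s := by
  have hint : ∀ r, 0 < r → r ≤ s → IntervalIntegrable (fun t : ℝ => (1 - Real.exp (-t)) / t)
      volume r s := by
    intro r hr hrs
    refine ContinuousOn.intervalIntegrable (ContinuousOn.div (by fun_prop) continuousOn_id ?_)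
    intro t ht
    rw [uIcc_of_le hrs] at ht
    exact (hr.trans_le ht.1).ne'
  have hu : ∀ r, 0 < r → r ≤ s → H s ≤ H r + (Pu7 s - Pu7 r) := by
    intro r hr hrs
    have h1 := H_sub hr hrs
    have h2 : ∫ t in r..s, (1 - t / 2 + t ^ 2 / 6 - t ^ 3 / 24 + t ^ 4 / 120 - t ^ 5 / 720
        + t ^ 6 / 5040) = Pu7 s - Pu7 r := by
      refine intervalIntegral.integral_eq_sub_of_hasDerivAt (fun t _ => ?_)
        (Continuous.intervalIntegrable (by fun_prop) _ _)
      have hp : ∀ (n : ℕ) (x : ℝ), HasDerivAt (fun x : ℝ => x ^ (n + 1))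
          (((n : ℝ) + 1) * x ^ n) x := by
        intro n x
        simpa using hasDerivAt_pow (n + 1) x
      have := ((((((hasDerivAt_id t).sub ((hp 1 t).div_const 4)).add ((hp 2 t).div_const 18)).sub
        ((hp 3 t).div_const 96)).add ((hp 4 t).div_const 600)).sub ((hp 5 t).div_const 4320)).add
        ((hp 6 t).div_const 35280)
      refine this.congr_deriv ?_
      push_cast
      ring
    have h3 : ∫ t in r..s, (1 - Real.exp (-t)) / t ≤
        ∫ t in r..s, (1 - t / 2 + t ^ 2 / 6 - t ^ 3 / 24 + t ^ 4 / 120 - t ^ 5 / 720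
        + t ^ 6 / 5040) := by
      refine intervalIntegral.integral_mono_on hrs (hint r hr hrs)
        (Continuous.intervalIntegrable (by fun_prop) _ _) fun t ht => ?_
      have ht0 : 0 < t := hr.trans_le ht.1
      rw [div_le_iff₀ ht0]
      have := exp_taylor7 ht0.le
      linear_combination this
    linarith
  have hPu : Tendsto Pu7 (𝓝[>] 0) (𝓝 0) := by
    have : Continuous Pu7 := by unfold Pu7; fun_prop
    have h := (this.tendsto 0).mono_left (nhdsWithin_le_nhds (s := Ioi (0 : ℝ)))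
    simpa [Pu7] using h
  have hev : Ioc (0 : ℝ) s ∈ 𝓝[>] (0 : ℝ) := Ioc_mem_nhdsGT hs
  have h1 := tendsto_H.add (tendsto_const_nhds (x := Pu7 s) |>.sub hPu)
  rw [sub_zero] at h1
  refine ge_of_tendsto h1 ?_
  filter_upwards [hev] with r hr using hu r hr.1 hr.2

theorem G_le7 {s : ℝ} (hs : 0 < s) :
    G s ≤ Real.exp s * (-Real.eulerMascheroniConstant - Real.log s + Pu7 s) := by
  rw [G_eq_H]
  exact mul_le_mul_of_nonneg_left (by linarith [H_le7 hs]) (Real.exp_pos s).le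

section
open IA
/-- the numerical inequality for `KL (3/5)` -/
def klE6 : E := .sub (.add (.add (.add (.mul (.cst 2 1) (.log (.cst 13 10))) (.log (.cst 2 5)))
  (.cst 3 10)) (.mul (.cst 1 5) (.mul (.exp (.cst 4 3)) (.add (.sub (.cst (-57718) 100000)
  (.log (.cst 4 3))) (.cst 23957104 24111675))))) (.cst 612 100000)

theorem klE6_chk : chk [klE6] (T.v 0) ⟨0, 0⟩ ⟨0, 0⟩ ⟨0, 0⟩ = true := by decide +kernel
end

theorem KL_three_fifths : KL (3 / 5) ≤ 612 / 100000 := by
  rw [KL_eq (by norm_num) (by norm_num)]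
  have hs : (0 : ℝ) < 4 / 3 := by norm_num
  have hb := G_le7 hs
  have es : (2 * (1 - 3 / 5) / (3 / 5) : ℝ) = 4 / 3 := by norm_num
  rw [es]
  have hg := IA.lt_gamma
  have hPu : Pu7 (4 / 3) ≤ 23957104 / 24111675 := by unfold Pu7; norm_num
  have h := IA.chk_sound _ _ _ _ _ klE6_chk 0 0 0 ⟨by simp, by simp⟩ ⟨by simp, by simp⟩
    ⟨by simp, by simp⟩
  obtain ⟨e, he, h⟩ := h
  simp only [List.mem_singleton] at he
  rw [he] at h
  simp only [klE6, IA.E.ev] at h
  push_cast at h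
  have h2 : Real.exp (4 / 3) * (-Real.eulerMascheroniConstant - Real.log (4 / 3) + Pu7 (4 / 3))
      ≤ Real.exp (4 / 3) * (-57718 / 100000 - Real.log (4 / 3) + 23957104 / 24111675) := by
    refine mul_le_mul_of_nonneg_left ?_ (Real.exp_pos _).le
    norm_num at hg ⊢
    linarith
  have e1 : (1 : ℝ) + 3 / 5 / 2 = 13 / 10 := by norm_num
  have e2 : (1 : ℝ) - 3 / 5 = 2 / 5 := by norm_num
  rw [e1, e2]
  linarith

theorem val_pow (k : ℕ) : ∫ x in Ioi (0 : ℝ), x ^ k * Real.exp (-x) = (k.factorial : ℝ) := by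
  rw [← Real.Gamma_nat_eq_factorial, Real.Gamma_eq_integral (by positivity)]
  refine setIntegral_congr_fun measurableSet_Ioi (fun x _ => ?_)
  have : x ^ ((k : ℝ) + 1 - 1) = x ^ k := by
    rw [add_sub_cancel_right, Real.rpow_natCast]
  simp only [this]
  ring

theorem G_six : 9 / 62 ≤ G 6 := by
  have i0 := VOneM.int_pow 0
  have i1 := VOneM.int_pow 1
  have i2 := VOneM.int_pow 2
  have i3 := VOneM.int_pow 3
  have v0 := val_pow 0
  have v1 := val_pow 1
  have v2 := val_pow 2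
  have v3 := val_pow 3
  have h : ∫ x in Ioi (0 : ℝ), ((160 / 961) * (x ^ 0 * Real.exp (-x))
      - (26 / 961) * (x ^ 1 * Real.exp (-x)) + (7 / 1922) * (x ^ 2 * Real.exp (-x))
      - (1 / 3844) * (x ^ 3 * Real.exp (-x))) ≤ G 6 := by
    refine setIntegral_mono_on ((((i0.const_mul _).sub (i1.const_mul _)).add
      (i2.const_mul _)).sub (i3.const_mul _)) (int_G (by norm_num)) measurableSet_Ioi fun x hx => ?_
    have hx' : (0 : ℝ) < x := hx
    have h6 : 0 < 6 + x := by linarith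
    rw [le_div_iff₀ h6]
    have e : Real.exp (-x) - (160 / 961 * (x ^ 0 * Real.exp (-x))
      - 26 / 961 * (x ^ 1 * Real.exp (-x)) + 7 / 1922 * (x ^ 2 * Real.exp (-x))
      - 1 / 3844 * (x ^ 3 * Real.exp (-x))) * (6 + x)
      = 1 / 3844 * Real.exp (-x) * (x ^ 2 - 4 * x + 2) ^ 2 := by ring
    have : 0 ≤ 1 / 3844 * Real.exp (-x) * (x ^ 2 - 4 * x + 2) ^ 2 := by positivity
    linarith
  have h2 : ∫ x in Ioi (0 : ℝ), ((160 / 961) * (x ^ 0 * Real.exp (-x))
      - (26 / 961) * (x ^ 1 * Real.exp (-x)) + (7 / 1922) * (x ^ 2 * Real.exp (-x))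
      - (1 / 3844) * (x ^ 3 * Real.exp (-x))) = 9 / 62 := by
    refine (integral_sub (((i0.const_mul (160 / 961)).sub (i1.const_mul (26 / 961))).add
      (i2.const_mul (7 / 1922))) (i3.const_mul (1 / 3844))).trans ?_
    rw [integral_const_mul, v3]
    have h3 : ∫ x in Ioi (0 : ℝ), ((160 / 961) * (x ^ 0 * Real.exp (-x))
      - (26 / 961) * (x ^ 1 * Real.exp (-x)) + (7 / 1922) * (x ^ 2 * Real.exp (-x)))
      = 160 / 961 - 26 / 961 + 7 / 1922 * 2 := by
      refine (integral_add ((i0.const_mul (160 / 961)).sub (i1.const_mul (26 / 961)))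
        (i2.const_mul (7 / 1922))).trans ?_
      rw [integral_const_mul, v2]
      have h4 : ∫ x in Ioi (0 : ℝ), ((160 / 961) * (x ^ 0 * Real.exp (-x))
        - (26 / 961) * (x ^ 1 * Real.exp (-x))) = 160 / 961 - 26 / 961 := by
        refine (integral_sub (i0.const_mul (160 / 961)) (i1.const_mul (26 / 961))).trans ?_
        rw [integral_const_mul, integral_const_mul, v0, v1]
        norm_num [Nat.factorial]
      refine (congrArg (fun y => y + 7 / 1922 * ((Nat.factorial 2 : ℕ) : ℝ)) h4).trans ?_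
      norm_num [Nat.factorial]
    refine (congrArg (fun y => y - 1 / 3844 * ((Nat.factorial 3 : ℕ) : ℝ)) h3).trans ?_
    norm_num [Nat.factorial]
  linarith

section
open IA
/-- the numerical inequality for `KL (1/4)` -/
def klE4 : E := .sub (.sub (.add (.add (.mul (.cst 2 1) (.log (.cst 9 8))) (.log (.cst 3 4)))
  (.cst 1 8)) (.cst 9 124)) (.cst 304 1000000)

theorem klE4_chk : chk [klE4] (T.v 0) ⟨0, 0⟩ ⟨0, 0⟩ ⟨0, 0⟩ = true := by decide +kernel
end

theorem KL_quarter : KL (1 / 4) ≤ 304 / 1000000 := by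
  rw [KL_eq (by norm_num) (by norm_num)]
  have es : (2 * (1 - 1 / 4) / (1 / 4) : ℝ) = 6 := by norm_num
  rw [es]
  have h := IA.chk_sound _ _ _ _ _ klE4_chk 0 0 0 ⟨by simp, by simp⟩ ⟨by simp, by simp⟩
    ⟨by simp, by simp⟩
  obtain ⟨e, he, h⟩ := h
  simp only [List.mem_singleton] at he
  rw [he] at h
  simp only [klE4, IA.E.ev] at h
  push_cast at h
  have hG := G_six
  have e1 : (1 : ℝ) + 1 / 4 / 2 = 9 / 8 := by norm_num
  have e2 : (1 : ℝ) - 1 / 4 = 3 / 4 := by norm_num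
  rw [e1, e2]
  linarith

end WM
end CholB
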