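import Pool.Agent.Lib.MP_6947cd_al.W.KLs

/-!
Problem MP_6947cd_al (Chollet).  Slope bounds `d(2W)/d(2x) ≤ 31/100` for the row values used.
-/

set_option autoImplicit false

open MeasureTheory Set Filter Topology

namespace CholB
namespace WM

/-- upper bound of the derivative, real form -/
noncomputable def WdU (θ τ ξ : ℝ) : ℝ :=
  sx θ τ ξ * sn θ τ ξ * (Real.exp (sx θ τ ξ) * (-57718 / 100000 - Real.log (sx θ τ ξ)
      + Pu (sx θ τ ξ)))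
    - sx θ τ ξ * (rn τ ξ * sx θ τ ξ + sn θ τ ξ * (2 * rx τ ξ + rx τ ξ * sx θ τ ξ))
      * (Real.exp (sx θ τ ξ) * (-577216 / 1000000 - Real.log (sx θ τ ξ) + Pd (sx θ τ ξ)))
    + (1 - sx θ τ ξ + rx τ ξ * sx θ τ ξ ^ 2) * sn θ τ ξ / sx θ τ ξ
    - rn τ ξ * (1 - sx θ τ ξ) + rx τ ξ * sn θ τ ξ + θ / ((1 + ξ) * Kx θ ξ)
    - 2 / (1 + ξ) ^ 2 * Real.log (Kx θ ξ)

theorem sn_nonneg {θ τ ξ : ℝ} (h0 : 0 < θ) (h1 : θ < 1) (hτ : 0 ≤ τ) (hξ : 0 ≤ ξ) :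
    0 ≤ sn θ τ ξ := by
  have h2 : 0 < 1 - θ := by linarith
  have := Kx_pos h0.le hξ
  unfold sn
  positivity

theorem rn_nonneg {τ ξ : ℝ} (hτ : 0 ≤ τ) (hξ : 0 ≤ ξ) : 0 ≤ rn τ ξ := by
  unfold rn; positivity

theorem G_up {s : ℝ} (hs : 0 < s) :
    G s ≤ Real.exp s * (-57718 / 100000 - Real.log s + Pu s) := by
  refine (G_bounds hs).2.trans (mul_le_mul_of_nonneg_left ?_ (Real.exp_pos _).le)
  have hg := IA.lt_gamma
  norm_num at hg ⊢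
  linarith

theorem G_lo {s : ℝ} (hs : 0 < s) :
    Real.exp s * (-577216 / 1000000 - Real.log s + Pd s) ≤ G s := by
  refine le_trans (mul_le_mul_of_nonneg_left ?_ (Real.exp_pos _).le) (G_bounds hs).1
  have hg := IA.gamma_lt
  norm_num at hg ⊢
  linarith

theorem Wd_le {θ τ ξ : ℝ} (h0 : 0 < θ) (h1 : θ < 1) (hτ : 0 ≤ τ) (hξ : 0 ≤ ξ) :
    Wd θ τ ξ ≤ WdU θ τ ξ := by
  have hs := sx_pos h0 h1 hτ hξ
  have hsn := sn_nonneg h0 h1 hτ hξ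
  have hr := rx_nonneg hτ hξ
  have hrn := rn_nonneg hτ hξ
  have hA := mul_le_mul_of_nonneg_left (G_up hs) (mul_nonneg hs.le hsn)
  have hB := mul_le_mul_of_nonneg_left (G_lo hs)
    (show 0 ≤ sx θ τ ξ * (rn τ ξ * sx θ τ ξ + sn θ τ ξ * (2 * rx τ ξ + rx τ ξ * sx θ τ ξ)) by
      positivity)
  unfold Wd WdU
  linarith

/-- lower bound of the row value, real form -/
noncomputable def WxL (θ τ k ξ : ℝ) : ℝ :=
  Real.log (1 - θ) + (1 - θ) + (1 - sx θ τ ξ + rx τ ξ * sx θ τ ξ ^ 2)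
    * (Real.exp (sx θ τ ξ) * (-577216 / 1000000 - Real.log (sx θ τ ξ) + Pd (sx θ τ ξ)))
    + rx τ ξ * (1 - sx θ τ ξ) + 2 / (1 + ξ) * Real.log (Kx θ ξ) - k

theorem WxL_le {θ τ k ξ : ℝ} (h0 : 0 < θ) (h1 : θ < 1) (hτ : 0 ≤ τ) (hξ : 0 ≤ ξ)
    (hs1 : sx θ τ ξ ≤ 1) (hk : KL τ ≤ k) :
    WxL θ τ k ξ ≤ Wrow θ τ (θ / 2 * (1 + ξ)) := by
  rw [Wrow_lt h0 h1 hτ hξ]
  have hs := sx_pos h0 h1 hτ hξ
  have hr := rx_nonneg hτ hξ
  have hA : 0 ≤ 1 - sx θ τ ξ + rx τ ξ * sx θ τ ξ ^ 2 := by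
    have := mul_nonneg hr (sq_nonneg (sx θ τ ξ))
    linarith
  have h2 := mul_le_mul_of_nonneg_left (G_lo hs) hA
  unfold WxL Wx
  linarith

section
open IA

/-- `Kx` -/
def KxE (t : E) : E := .add (.cst 1 1) (.mul (.div t (.cst 2 1)) (.add (.cst 1 1) .x0))
/-- `τ/(2+τ)` -/
def pE (u : E) : E := .div u (.add (.cst 2 1) u)
/-- `2/(2+τ) + ξ` -/
def qxE (u : E) : E := .add (.div (.cst 2 1) (.add (.cst 2 1) u)) .x0
/-- `rx` -/
def rxE (u : E) : E := .div (pE u) (qxE u)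
/-- `rn` -/
def rnE (u : E) : E := .div (pE u) (.mul (qxE u) (qxE u))
/-- `sx` -/
def sxE (t u : E) : E := .div (.mul (.div (.mul (.cst 2 1) (.sub (.cst 1 1) t)) t)
  (.add (.cst 1 1) .x0)) (.mul (KxE t) (qxE u))
/-- `sn` -/
def snE (t u : E) : E := .div (.mul (.div (.mul (.cst 2 1) (.sub (.cst 1 1) t)) t)
  (.add (.mul (pE u) (KxE t)) (.mul (.mul (.div t (.cst 2 1)) (.add (.cst 1 1) .x0)) (qxE u))))
  (.mul (.mul (KxE t) (qxE u)) (.mul (KxE t) (qxE u)))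
/-- upper bound of `G` -/
def guE (s : E) : E := .mul (.exp s) (.add (.sub (.cst (-57718) 100000) (.log s))
  (.add (pdE s) (.div (.mul (.mul (sqE s) (sqE s)) s) (.cst 600 1))))
/-- `WdU` -/
def WdUE (t u : E) : E :=
  .sub (.add (.add (.sub (.add (.sub
    (.mul (.mul (sxE t u) (snE t u)) (guE (sxE t u)))
    (.mul (.mul (sxE t u) (.add (.mul (rnE u) (sxE t u)) (.mul (snE t u) (.add (.mul (.cst 2 1)
      (rxE u)) (.mul (rxE u) (sxE t u)))))) (gE (sxE t u))))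
    (.div (.mul (.add (.sub (.cst 1 1) (sxE t u)) (.mul (rxE u) (sqE (sxE t u)))) (snE t u))
      (sxE t u)))
    (.mul (rnE u) (.sub (.cst 1 1) (sxE t u))))
    (.mul (rxE u) (snE t u)))
    (.div t (.mul (.add (.cst 1 1) .x0) (KxE t))))
    (.mul (.div (.cst 2 1) (sqE (.add (.cst 1 1) .x0))) (.log (KxE t)))
/-- `WxL` -/
def WxLE (t u k : E) : E :=
  .sub (.add (.add (.add (.add (.log (.sub (.cst 1 1) t)) (.sub (.cst 1 1) t))
    (.mul (.add (.sub (.cst 1 1) (sxE t u)) (.mul (rxE u) (sqE (sxE t u)))) (gE (sxE t u))))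
    (.mul (rxE u) (.sub (.cst 1 1) (sxE t u))))
    (.mul (.div (.cst 2 1) (.add (.cst 1 1) .x0)) (.log (KxE t)))) k

variable (t u k s : E) (x y z : ℝ)

theorem KxE_ev : (KxE t).ev x y z = Kx (t.ev x y z) x := by
  simp [KxE, Kx, E.ev]

theorem rxE_ev : (rxE u).ev x y z = rx (u.ev x y z) x := by
  simp [rxE, pE, qxE, rx, E.ev]

theorem rnE_ev : (rnE u).ev x y z = rn (u.ev x y z) x := by
  simp [rnE, pE, qxE, rn, E.ev]

theorem sxE_ev : (sxE t u).ev x y z = sx (t.ev x y z) (u.ev x y z) x := by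
  simp [sxE, KxE, qxE, sx, Kx, E.ev]

theorem snE_ev : (snE t u).ev x y z = sn (t.ev x y z) (u.ev x y z) x := by
  simp [snE, KxE, pE, qxE, sn, Kx, E.ev]

theorem pdE_ev : (pdE s).ev x y z = Pd (s.ev x y z) := by
  simp only [pdE, sqE, Pd, E.ev]
  push_cast
  ring

theorem gE_ev : (gE s).ev x y z = Real.exp (s.ev x y z) * (-577216 / 1000000
    - Real.log (s.ev x y z) + Pd (s.ev x y z)) := by
  simp only [gE, E.ev, pdE_ev]
  push_cast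
  ring

theorem guE_ev : (guE s).ev x y z = Real.exp (s.ev x y z) * (-57718 / 100000
    - Real.log (s.ev x y z) + Pu (s.ev x y z)) := by
  simp only [guE, E.ev, pdE_ev, sqE]
  unfold Pu Pd
  push_cast
  ring

theorem WdUE_ev : (WdUE t u).ev x y z = WdU (t.ev x y z) (u.ev x y z) x := by
  simp only [WdUE, E.ev, sxE_ev, snE_ev, rnE_ev, rxE_ev, KxE_ev, gE_ev, guE_ev, sqE]
  unfold WdU
  push_cast
  rw [sq (1 + x), sq (sx (t.ev x y z) (u.ev x y z) x)]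
  ring

theorem WxLE_ev : (WxLE t u k).ev x y z = WxL (t.ev x y z) (u.ev x y z) (k.ev x y z) x := by
  simp only [WxLE, E.ev, sxE_ev, rxE_ev, KxE_ev, gE_ev, sqE]
  unfold WxL
  push_cast
  simp only [div_one]
  ring

/-- the slope inequality `2 Wd ≤ 31/100 θ` -/
def slE (t u : E) : E := .sub (.mul (.cst 2 1) (WdUE t u)) (.mul (.cst 31 100) t)

open T in
theorem sl1_chk : chk [slE (.cst 17 20) (.cst 3 4)] (s0 (s0 (s0 (d 0) (d 0)) (s0 (d 0) (d 0)))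
    (s0 (s0 (d 0) (d 0)) (s0 (d 0) (d 0)))) ⟨0, 258708618301⟩ ⟨0, 0⟩ ⟨0, 0⟩ = true := by
  decide +kernel

open T in
theorem sl2_chk : chk [slE (.cst 17 20) (.cst 3 5)] (s0 (s0 (s0 (d 0) (d 0)) (s0 (d 0) (d 0)))
    (s0 (s0 (d 0) (d 0)) (s0 (d 0) (d 0)))) ⟨219902325555, 543288098431⟩ ⟨0, 0⟩ ⟨0, 0⟩ = true := by
  decide +kernel

open T in
theorem sl3_chk : chk [slE (.cst 19 20) (.cst 3 5)] (s0 (s0 (s0 (d 0) (d 0)) (s0 (d 0) (d 0)))
    (s0 (s0 (d 0) (d 0)) (s0 (d 0) (d 0)))) ⟨413184895911, 694428396491⟩ ⟨0, 0⟩ ⟨0, 0⟩ = true := by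
  decide +kernel

open T in
theorem sl4_chk : chk [slE (.cst 19 20) (.cst 1 2)] (s0 (s0 (s0 (d 0) (d 0)) (s0 (d 0) (d 0)))
    (s0 (s0 (d 0) (d 0)) (s0 (d 0) (d 0)))) ⟨590264136964, 925904528655⟩ ⟨0, 0⟩ ⟨0, 0⟩ = true := by
  decide +kernel

end

open IA in
theorem sl_use (t u : E) (T0 : T) (X : I) (hc : chk [slE t u] T0 X ⟨0, 0⟩ ⟨0, 0⟩ = true)
    (θ τ : ℝ) (h0 : 0 < θ) (h1 : θ < 1) (hτ : 0 ≤ τ) (ht : ∀ x y z, t.ev x y z = θ)
    (hu : ∀ x y z, u.ev x y z = τ) (ξ : ℝ) (hX : X.Mem ξ) (hξ : 0 ≤ ξ) :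
    2 * Wd θ τ ξ ≤ 31 / 100 * θ := by
  obtain ⟨e, he, h⟩ := chk_sound _ _ _ _ _ hc ξ 0 0 hX ⟨by simp, by simp⟩ ⟨by simp, by simp⟩
  simp only [List.mem_singleton] at he
  rw [he] at h
  simp only [slE, E.ev, WdUE_ev, ht, hu] at h
  push_cast at h
  have := Wd_le h0 h1 hτ hξ
  linarith

theorem slope1 (ξ : ℝ) (h0 : 0 ≤ ξ) (h1 : ξ ≤ 4 / 17) :
    2 * Wd (17 / 20) (3 / 4) ξ ≤ 31 / 100 * (17 / 20) := by
  refine sl_use _ _ _ _ sl1_chk _ _ (by norm_num) (by norm_num) (by norm_num)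
    (fun x y z => by simp [IA.E.ev]) (fun x y z => by simp [IA.E.ev]) ξ ⟨?_, ?_⟩ h0
  · push_cast; linarith
  · push_cast; linarith

theorem slope2 (ξ : ℝ) (h0 : 1 / 5 ≤ ξ) (h1 : ξ ≤ 42 / 85) :
    2 * Wd (17 / 20) (3 / 5) ξ ≤ 31 / 100 * (17 / 20) := by
  refine sl_use _ _ _ _ sl2_chk _ _ (by norm_num) (by norm_num) (by norm_num)
    (fun x y z => by simp [IA.E.ev]) (fun x y z => by simp [IA.E.ev]) ξ ⟨?_, ?_⟩ (by linarith)
  · push_cast; linarith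
  · push_cast; linarith

theorem slope3 (ξ : ℝ) (h0 : 357 / 950 ≤ ξ) (h1 : ξ ≤ 12 / 19) :
    2 * Wd (19 / 20) (3 / 5) ξ ≤ 31 / 100 * (19 / 20) := by
  refine sl_use _ _ _ _ sl3_chk _ _ (by norm_num) (by norm_num) (by norm_num)
    (fun x y z => by simp [IA.E.ev]) (fun x y z => by simp [IA.E.ev]) ξ ⟨?_, ?_⟩ (by linarith)
  · push_cast; linarith
  · push_cast; linarith

theorem slope4 (ξ : ℝ) (h0 : 51 / 95 ≤ ξ) (h1 : ξ ≤ 16 / 19) :
    2 * Wd (19 / 20) (1 / 2) ξ ≤ 31 / 100 * (19 / 20) := by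
  refine sl_use _ _ _ _ sl4_chk _ _ (by norm_num) (by norm_num) (by norm_num)
    (fun x y z => by simp [IA.E.ev]) (fun x y z => by simp [IA.E.ev]) ξ ⟨?_, ?_⟩ (by linarith)
  · push_cast; linarith
  · push_cast; linarith

/-! ### `θ = 1` -/

/-- the row value for `θ = 1`, `x = (1 + ξ)/2`, up to constants -/
noncomputable def Wo (τ ξ : ℝ) : ℝ :=
  Real.log ((3 + ξ) / 4) + 2 / (1 + ξ) * Real.log ((3 + ξ) / 2)
    + (Real.log ((2 / (2 + τ) + ξ) / (1 + ξ)) + (τ / (2 + τ)) / (2 / (2 + τ) + ξ))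

theorem Wrow_one' {τ ξ : ℝ} (hτ : 0 ≤ τ) (hξ : 0 ≤ ξ) :
    Wrow 1 τ ((1 + ξ) / 2) = Wo τ ξ - Real.eulerMascheroniConstant - KL τ := by
  rw [Wrow_one hτ hξ]
  unfold Wo
  ring

/-- the derivative of `Wo` -/
noncomputable def Wod (τ ξ : ℝ) : ℝ :=
  1 / (1 + ξ) - 2 * Real.log ((3 + ξ) / 2) / ((1 + ξ) * (1 + ξ))
    - (τ / (2 + τ)) * (τ / (2 + τ)) / ((2 / (2 + τ) + ξ) * (2 / (2 + τ) + ξ) * (1 + ξ))

theorem hasDerivAt_Wo {τ ξ : ℝ} (hτ : 0 ≤ τ) (hξ : 0 ≤ ξ) : HasDerivAt (Wo τ) (Wod τ ξ) ξ := by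
  have h2τ : 0 < 2 + τ := by linarith
  have hq : 0 < 2 / (2 + τ) := by positivity
  have hq1 : 0 < 2 / (2 + τ) + ξ := by linarith
  have h1 : 0 < 1 + ξ := by linarith
  have h3 : 0 < 3 + ξ := by linarith
  have i1 := ((hasDerivAt_id ξ).const_add 1)
  have i3 := ((hasDerivAt_id ξ).const_add 3)
  have iq := ((hasDerivAt_id ξ).const_add (2 / (2 + τ)))
  have a1 := (i3.div_const 4).log (by simp only [id]; positivity)
  have a2 := ((hasDerivAt_const ξ (2 : ℝ)).div i1 h1.ne').mul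
    ((i3.div_const 2).log (by simp only [id]; positivity))
  have a3 := (iq.div i1 h1.ne').log (by simp only [Pi.div_apply, id]; positivity)
  have a4 := (hasDerivAt_const ξ (τ / (2 + τ))).div iq hq1.ne'
  have h := ((a1.add a2).add (a3.add a4))
  refine h.congr_deriv ?_
  unfold Wod
  simp only [id, Pi.div_apply]
  have e : (2 : ℝ) / (2 + τ) = 1 - τ / (2 + τ) := by field_simp; ring
  set p := τ / (2 + τ)
  rw [e] at hq1 ⊢
  set L := Real.log ((3 + ξ) / 2)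
  field_simp
  ring

section
open IA

/-- `2 Wod ≤ 31/100` -/
def soE (p q : E) : E := .sub (.mul (.cst 2 1) (.sub (.sub (.div (.cst 1 1) (.add (.cst 1 1) .x0))
  (.div (.mul (.cst 2 1) (.log (.div (.add (.cst 3 1) .x0) (.cst 2 1))))
    (.mul (.add (.cst 1 1) .x0) (.add (.cst 1 1) .x0))))
  (.div (.mul p p) (.mul (.mul (.add q .x0) (.add q .x0)) (.add (.cst 1 1) .x0))))) (.cst 31 100)

open T in
theorem so5_chk : chk [soE (.cst 1 5) (.cst 4 5)] (s0 (s0 (s0 (d 0) (d 0)) (s0 (d 0) (d 0)))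
    (s0 (d 0) (d 0))) ⟨747667906887, 1319413953332⟩ ⟨0, 0⟩ ⟨0, 0⟩ = true := by
  decide +kernel

open T in
theorem so6_chk : chk [soE (.cst 1 9) (.cst 8 9)] (s0 (s0 (d 0) (d 0)) (d 0))
    ⟨1121501860331, 1649267441664⟩ ⟨0, 0⟩ ⟨0, 0⟩ = true := by
  decide +kernel

end

theorem slope5 (ξ : ℝ) (h0 : 17 / 25 ≤ ξ) (h1 : ξ ≤ 6 / 5) : 2 * Wod (1 / 2) ξ ≤ 31 / 100 := by
  obtain ⟨e, he, h⟩ := IA.chk_sound _ _ _ _ _ so5_chk ξ 0 0
    ⟨by push_cast; linarith, by push_cast; linarith⟩ ⟨by simp, by simp⟩ ⟨by simp, by simp⟩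
  simp only [List.mem_singleton] at he
  rw [he] at h
  simp only [soE, IA.E.ev] at h
  push_cast at h
  unfold Wod
  have e1 : (1 / 2 : ℝ) / (2 + 1 / 2) = 1 / 5 := by norm_num
  have e2 : (2 : ℝ) / (2 + 1 / 2) = 4 / 5 := by norm_num
  rw [e1, e2]
  simp only [div_one] at h
  linarith

theorem slope6a (ξ : ℝ) (h0 : 51 / 50 ≤ ξ) (h1 : ξ ≤ 3 / 2) : 2 * Wod (1 / 4) ξ ≤ 31 / 100 := by
  obtain ⟨e, he, h⟩ := IA.chk_sound _ _ _ _ _ so6_chk ξ 0 0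
    ⟨by push_cast; linarith, by push_cast; linarith⟩ ⟨by simp, by simp⟩ ⟨by simp, by simp⟩
  simp only [List.mem_singleton] at he
  rw [he] at h
  simp only [soE, IA.E.ev] at h
  push_cast at h
  unfold Wod
  have e1 : (1 / 4 : ℝ) / (2 + 1 / 4) = 1 / 9 := by norm_num
  have e2 : (2 : ℝ) / (2 + 1 / 4) = 8 / 9 := by norm_num
  rw [e1, e2]
  simp only [div_one] at h
  linarith

theorem slope6b (ξ : ℝ) (h0 : 3 / 2 ≤ ξ) : 2 * Wod (1 / 4) ξ ≤ 31 / 100 := by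
  have h1 : 0 < 1 + ξ := by linarith
  have hl := Real.le_log_one_add_of_nonneg (show (0 : ℝ) ≤ (1 + ξ) / 2 by positivity)
  have e3 : 1 + (1 + ξ) / 2 = (3 + ξ) / 2 := by ring
  rw [e3] at hl
  have e4 : 2 * ((1 + ξ) / 2) / ((1 + ξ) / 2 + 2) = 2 * (1 + ξ) / (5 + ξ) := by
    rw [div_eq_div_iff (by positivity) (by positivity)]
    ring
  rw [e4] at hl
  have h5 : 2 * (2 * (1 + ξ) / (5 + ξ)) / ((1 + ξ) * (1 + ξ))
      ≤ 2 * Real.log ((3 + ξ) / 2) / ((1 + ξ) * (1 + ξ)) :=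
    div_le_div_of_nonneg_right (by linarith) (by positivity)
  have h6 : 2 * (2 * (1 + ξ) / (5 + ξ)) / ((1 + ξ) * (1 + ξ)) = 1 / (1 + ξ) - 1 / (5 + ξ) := by
    have : (5 + ξ) ≠ 0 := by linarith
    field_simp
    ring
  have h7 : (1 : ℝ) / (5 + ξ) ≤ 2 / 13 := by
    rw [div_le_div_iff₀ (by linarith) (by norm_num)]
    linarith
  have h8 : 0 ≤ (1 / 4 : ℝ) / (2 + 1 / 4) * (1 / 4 / (2 + 1 / 4))
      / ((2 / (2 + 1 / 4) + ξ) * (2 / (2 + 1 / 4) + ξ) * (1 + ξ)) := by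
    have : 0 ≤ ξ := by linarith
    positivity
  unfold Wod
  linarith

theorem slope6 (ξ : ℝ) (h0 : 51 / 50 ≤ ξ) : 2 * Wod (1 / 4) ξ ≤ 31 / 100 := by
  rcases le_total ξ (3 / 2) with h | h
  · exact slope6a ξ h0 h
  · exact slope6b ξ h

/-- slope bound from the derivative, `θ = 1` -/
theorem Wrow_slope_one {τ lam a b : ℝ} (hτ : 0 ≤ τ) (ha : 0 ≤ a)
    (h : ∀ ξ, a ≤ ξ → ξ ≤ b → 2 * Wod τ ξ ≤ lam) (ξ η : ℝ) (h2 : a ≤ ξ) (h3 : ξ ≤ η)
    (h4 : η ≤ b) :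
    2 * Wrow 1 τ ((1 + η) / 2) - lam * (1 + η) ≤ 2 * Wrow 1 τ ((1 + ξ) / 2) - lam * (1 + ξ) := by
  rw [Wrow_one' hτ (by linarith), Wrow_one' hτ (by linarith)]
  have hanti : AntitoneOn (fun x => 2 * Wo τ x - lam * (1 + x)) (Icc a b) := by
    have hd : ∀ x, 0 ≤ x → HasDerivAt (fun x => 2 * Wo τ x - lam * (1 + x))
        (2 * Wod τ x - lam) x := by
      intro x hx
      have := ((hasDerivAt_Wo hτ hx).const_mul 2).sub
        (((hasDerivAt_id x).const_add 1).const_mul lam)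
      refine this.congr_deriv ?_
      ring
    refine antitoneOn_of_deriv_nonpos (convex_Icc a b)
      (fun x hx => (hd x (ha.trans hx.1)).continuousAt.continuousWithinAt)
      (fun x hx => ?_) fun x hx => ?_
    · rw [interior_Icc] at hx
      exact (hd x (ha.trans hx.1.le)).differentiableAt.differentiableWithinAt
    · rw [interior_Icc] at hx
      rw [(hd x (ha.trans hx.1.le)).deriv]
      linarith [h x hx.1.le hx.2.le]
  have := hanti ⟨h2, h3.trans h4⟩ ⟨h2.trans h3, h4⟩ h3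
  simp only at this
  linarith

/-! ### near zero -/

/-- lower bound of the derivative, real form -/
noncomputable def WdL (θ τ ξ : ℝ) : ℝ :=
  sx θ τ ξ * sn θ τ ξ * (Real.exp (sx θ τ ξ) * (-577216 / 1000000 - Real.log (sx θ τ ξ)
      + Pd (sx θ τ ξ)))
    - sx θ τ ξ * (rn τ ξ * sx θ τ ξ + sn θ τ ξ * (2 * rx τ ξ + rx τ ξ * sx θ τ ξ))
      * (Real.exp (sx θ τ ξ) * (-57718 / 100000 - Real.log (sx θ τ ξ) + Pu (sx θ τ ξ)))
    + (1 - sx θ τ ξ + rx τ ξ * sx θ τ ξ ^ 2) * sn θ τ ξ / sx θ τ ξ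
    - rn τ ξ * (1 - sx θ τ ξ) + rx τ ξ * sn θ τ ξ + θ / ((1 + ξ) * Kx θ ξ)
    - 2 / (1 + ξ) ^ 2 * Real.log (Kx θ ξ)

theorem le_Wd {θ τ ξ : ℝ} (h0 : 0 < θ) (h1 : θ < 1) (hτ : 0 ≤ τ) (hξ : 0 ≤ ξ) :
    WdL θ τ ξ ≤ Wd θ τ ξ := by
  have hs := sx_pos h0 h1 hτ hξ
  have hsn := sn_nonneg h0 h1 hτ hξ
  have hr := rx_nonneg hτ hξ
  have hrn := rn_nonneg hτ hξ
  have hA := mul_le_mul_of_nonneg_left (G_lo hs) (mul_nonneg hs.le hsn)
  have hB := mul_le_mul_of_nonneg_left (G_up hs)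
    (show 0 ≤ sx θ τ ξ * (rn τ ξ * sx θ τ ξ + sn θ τ ξ * (2 * rx τ ξ + rx τ ξ * sx θ τ ξ)) by
      positivity)
  unfold Wd WdL
  linarith

section
open IA

/-- `WdL` -/
def WdLE (t u : E) : E :=
  .sub (.add (.add (.sub (.add (.sub
    (.mul (.mul (sxE t u) (snE t u)) (gE (sxE t u)))
    (.mul (.mul (sxE t u) (.add (.mul (rnE u) (sxE t u)) (.mul (snE t u) (.add (.mul (.cst 2 1)
      (rxE u)) (.mul (rxE u) (sxE t u)))))) (guE (sxE t u))))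
    (.div (.mul (.add (.sub (.cst 1 1) (sxE t u)) (.mul (rxE u) (sqE (sxE t u)))) (snE t u))
      (sxE t u)))
    (.mul (rnE u) (.sub (.cst 1 1) (sxE t u))))
    (.mul (rxE u) (snE t u)))
    (.div t (.mul (.add (.cst 1 1) .x0) (KxE t))))
    (.mul (.div (.cst 2 1) (sqE (.add (.cst 1 1) .x0))) (.log (KxE t)))

theorem WdLE_ev (t u : E) (x y z : ℝ) :
    (WdLE t u).ev x y z = WdL (t.ev x y z) (u.ev x y z) x := by
  simp only [WdLE, E.ev, sxE_ev, snE_ev, rnE_ev, rxE_ev, KxE_ev, gE_ev, guE_ev, sqE]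
  unfold WdL
  push_cast
  rw [sq (1 + x), sq (sx (t.ev x y z) (u.ev x y z) x)]
  ring

/-- the inequality `93/2000 θ + θ² ξ ≤ 2 Wd θ θ ξ` -/
def s0E (t : E) : E := .sub (.add (.mul (.cst 93 2000) t) (.mul (.mul t t) .x0))
  (.mul (.cst 2 1) (WdLE t t))

open T in
theorem s0_chk : chk [s0E (.cst 17 20)] (s0 (s0 (d 0) (d 0)) (s0 (d 0) (d 0)))
    ⟨0, 64677154576⟩ ⟨0, 0⟩ ⟨0, 0⟩ = true := by
  decide +kernel

theorem sl0_chk : chk [slE (.cst 17 20) (.cst 17 20)] (T.d 0)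
    ⟨0, 64677154576⟩ ⟨0, 0⟩ ⟨0, 0⟩ = true := by
  decide +kernel

end

theorem slope0 (ξ : ℝ) (h0 : 0 ≤ ξ) (h1 : ξ ≤ 1 / 17) :
    2 * Wd (17 / 20) (17 / 20) ξ ≤ 31 / 100 * (17 / 20) := by
  refine sl_use _ _ _ _ sl0_chk _ _ (by norm_num) (by norm_num) (by norm_num)
    (fun x y z => by simp [IA.E.ev]) (fun x y z => by simp [IA.E.ev]) ξ ⟨?_, ?_⟩ h0
  · push_cast; linarith
  · push_cast; linarith

theorem Wd_ge0 (ξ : ℝ) (h0 : 0 ≤ ξ) (h1 : ξ ≤ 1 / 17) :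
    93 / 2000 * (17 / 20) + (17 / 20) * (17 / 20) * ξ ≤ 2 * Wd (17 / 20) (17 / 20) ξ := by
  obtain ⟨e, he, h⟩ := IA.chk_sound _ _ _ _ _ s0_chk ξ 0 0
    ⟨by push_cast; linarith, by push_cast; linarith⟩ ⟨by simp, by simp⟩ ⟨by simp, by simp⟩
  simp only [List.mem_singleton] at he
  rw [he] at h
  simp only [s0E, IA.E.ev, WdLE_ev] at h
  push_cast at h
  have := le_Wd (θ := 17 / 20) (τ := 17 / 20) (ξ := ξ) (by norm_num) (by norm_num) (by norm_num) h0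
  linarith

/-- the row value of an isolated row vanishes -/
theorem Wx_zero {θ : ℝ} (h0 : 0 < θ) (h1 : θ < 1) : Wx θ θ 0 = KL θ := by
  have h2 : 0 < 2 + θ := by linarith
  rw [KL_eq h0 h1]
  have e1 : Kx θ 0 = 1 + θ / 2 := by unfold Kx; ring
  have e2 : sx θ θ 0 = 2 * (1 - θ) / θ := by
    unfold sx
    rw [e1]
    field_simp
    ring
  have e3 : rx θ 0 = θ / 2 := by
    unfold rx
    field_simp
    ring
  unfold Wx
  rw [e1, e2, e3]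
  field_simp
  ring

theorem near_zero (s : ℝ) (h0 : 0 ≤ s) (h1 : s ≤ 1 / 20) :
    s ^ 2 / 2 ≤ 2 * Wrow (17 / 20) (17 / 20) ((17 / 20 + s) / 2) - 31 / 100 * (3 / 20 * s) := by
  have e : (17 / 20 + s) / 2 = 17 / 20 / 2 * (1 + s / (17 / 20)) := by ring
  rw [e, Wrow_lt (by norm_num) (by norm_num) (by norm_num) (by positivity)]
  set ξ := s / (17 / 20) with hξ
  have hs : s = 17 / 20 * ξ := by rw [hξ]; ring
  have hξ0 : 0 ≤ ξ := by positivity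
  have hξ1 : ξ ≤ 1 / 17 := by
    rw [hξ, div_le_iff₀ (by norm_num)]
    linarith
  set f : ℝ → ℝ := fun x => 2 * Wx (17 / 20) (17 / 20) x - (93 / 2000 * (17 / 20) * x
    + (17 / 20) * (17 / 20) * (x ^ 2 / 2)) with hf
  have hd : ∀ x, 0 ≤ x → HasDerivAt f (2 * Wd (17 / 20) (17 / 20) x - (93 / 2000 * (17 / 20)
      + (17 / 20) * (17 / 20) * x)) x := by
    intro x hx
    have h2 := ((hasDerivAt_Wx (θ := 17 / 20) (τ := 17 / 20) (by norm_num) (by norm_num)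
      (by norm_num) hx).const_mul 2).sub (((hasDerivAt_id x).const_mul (93 / 2000 * (17 / 20))).add
      (((hasDerivAt_pow 2 x).div_const 2).const_mul ((17 / 20) * (17 / 20))))
    refine h2.congr_deriv ?_
    push_cast
    ring
  have hmono : MonotoneOn f (Icc 0 (1 / 17)) := by
    refine monotoneOn_of_deriv_nonneg (convex_Icc _ _)
      (fun x hx => (hd x hx.1).continuousAt.continuousWithinAt)
      (fun x hx => ?_) fun x hx => ?_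
    · rw [interior_Icc] at hx
      exact (hd x hx.1.le).differentiableAt.differentiableWithinAt
    · rw [interior_Icc] at hx
      rw [(hd x hx.1.le).deriv]
      linarith [Wd_ge0 x hx.1.le hx.2.le]
  have h3 := hmono (left_mem_Icc.mpr (by norm_num)) ⟨hξ0, hξ1⟩ hξ0
  have h4 : f 0 = 2 * KL (17 / 20) := by
    rw [hf]
    simp only
    rw [Wx_zero (by norm_num) (by norm_num)]
    ring
  rw [h4, hf] at h3
  simp only at h3
  rw [hs]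
  linarith

end WM
end CholB
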